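import Pool.Agent.XP.PairsB

/-!
# XP: the triples (word, word, set) and the data of the pairs
-/

set_option autoImplicit false

namespace Pool.XP

open Finset

variable {R Q : ℕ}

/-- a triple matches the data -/
def Mt (τ : Fin (R + Q) → Loc) (s t : Row R Q → Col R Q) (B : Finset (Row R Q)) : Prop :=
  (∀ i, q1 τ (s i) = (tyR i, decide (i ∈ B))) ∧ ∀ i, q3 τ (t i) = (tyR i, decide (i ∈ B))

theorem mem_Om {s : Row R Q → Col R Q} : s ∈ Om R Q ↔
    Function.Bijective s ∧ ∀ i j, (s i).1 = (s j).1 → tyR i = tyR j := by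
  simp [Om]

theorem exists_match {s t : Row R Q → Col R Q} {B : Finset (Row R Q)} (hs : s ∈ Om R Q)
    (ht : t ∈ Om R Q) (hm : mixB B s t ∈ Om R Q) : ∃ τ : Fin (R + Q) → Loc, Cmp τ ∧ Mt τ s t B := by
  classical
  rw [mem_Om] at hs ht hm
  obtain ⟨hsb, hs2⟩ := hs
  obtain ⟨htb, ht2⟩ := ht
  obtain ⟨hmb, hm2⟩ := hm
  set es : Row R Q ≃ Col R Q := Equiv.ofBijective s hsb with hes
  set et : Row R Q ≃ Col R Q := Equiv.ofBijective t htb with het
  have es1 : ∀ c, s (es.symm c) = c := fun c => es.apply_symm_apply c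
  have es2 : ∀ i, es.symm (s i) = i := fun i => es.symm_apply_apply i
  have et1 : ∀ c, t (et.symm c) = c := fun c => et.apply_symm_apply c
  have et2 : ∀ i, et.symm (t i) = i := fun i => et.symm_apply_apply i
  have mB : ∀ i, i ∈ B → mixB B s t i = s i := fun i hi => by simp [mixB, hi]
  have mN : ∀ i, i ∉ B → mixB B s t i = t i := fun i hi => by simp [mixB, hi]
  have F1 : ∀ g b b', tyR (es.symm (g, b)) = tyR (es.symm (g, b')) := fun g b b' =>
    hs2 _ _ (by rw [es1, es1])
  have F1' : ∀ g b b', tyR (et.symm (g, b)) = tyR (et.symm (g, b')) := fun g b b' =>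
    ht2 _ _ (by rw [et1, et1])
  have F2 : ∀ i, es.symm (t i) ∈ B ↔ i ∈ B := by
    intro i
    constructor
    · intro hj
      by_contra hi
      have h1 : mixB B s t (es.symm (t i)) = mixB B s t i := by rw [mB _ hj, mN _ hi, es1]
      exact hi (hmb.1 h1 ▸ hj)
    · intro hi
      obtain ⟨m, hm3⟩ := hmb.2 (t i)
      by_cases h1 : m ∈ B
      · rw [mB _ h1] at hm3
        rw [← hm3, es2]
        exact h1
      · rw [mN _ h1] at hm3
        exact absurd (htb.1 hm3 ▸ hi) h1
  have F2' : ∀ c, es.symm c ∈ B ↔ et.symm c ∈ B := fun c => by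
    have := F2 (et.symm c)
    rwa [et1] at this
  set τ : Fin (R + Q) → Loc := fun g => (tyR (es.symm (g, false)), tyR (et.symm (g, false)),
    decide (es.symm (g, false) ∈ B), decide (es.symm (g, true) ∈ B)) with hτ
  have hcm : ∀ c, cmP τ c = decide (es.symm c ∈ B) := by
    intro c
    obtain ⟨g, b⟩ := c
    cases b <;> simp [cmP, hτ]
  refine ⟨τ, ?_, ?_, ?_⟩
  · intro g hg
    simp only [hτ] at hg ⊢
    by_cases h0 : es.symm (g, false) ∈ B
    · have h1 : es.symm (g, true) ∉ B := by
        intro h1
        simp [h0, h1] at hg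
      have h2 : et.symm (g, true) ∉ B := fun h => h1 ((F2' _).2 h)
      have h3 := hm2 (es.symm (g, false)) (et.symm (g, true)) (by rw [mB _ h0, mN _ h2, es1, et1])
      rw [h3]
      exact F1' g true false
    · have h1 : es.symm (g, true) ∈ B := by
        by_contra h1
        simp [h0, h1] at hg
      have h2 : et.symm (g, false) ∉ B := fun h => h0 ((F2' _).2 h)
      have h3 := hm2 (es.symm (g, true)) (et.symm (g, false)) (by rw [mB _ h1, mN _ h2, es1, et1])
      rw [← h3]
      exact F1 g false true
  · intro i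
    refine Prod.ext ?_ ?_
    · change tyR (es.symm ((s i).1, false)) = tyR i
      rw [F1 _ false (s i).2, Prod.mk.eta, es2]
    · change cmP τ (s i) = decide (i ∈ B)
      rw [hcm, es2]
  · intro i
    refine Prod.ext ?_ ?_
    · change tyR (et.symm ((t i).1, false)) = tyR i
      rw [F1' _ false (t i).2, Prod.mk.eta, et2]
    · change cmP τ (t i) = decide (i ∈ B)
      rw [hcm]
      exact decide_eq_decide.2 (F2 i)

theorem card_lab {I A κ : Type} [Fintype I] [Fintype A] [DecidableEq κ]
    {s : I → A} (hs : Function.Bijective s) {p : I → κ} {q : A → κ} (h : ∀ i, q (s i) = p i)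
    (k : κ) : (univ.filter fun c => q c = k).card = (univ.filter fun i => p i = k).card := by
  refine (card_bij (fun i _ => s i) ?_ ?_ ?_).symm
  · intro i hi
    rw [mem_filter] at hi ⊢
    exact ⟨mem_univ _, by rw [h]; exact hi.2⟩
  · intro i _ j _ hij
    exact hs.1 hij
  · intro c hc
    obtain ⟨i, rfl⟩ := hs.2 c
    rw [mem_filter] at hc
    exact ⟨i, by rw [mem_filter]; exact ⟨mem_univ _, by rw [← h]; exact hc.2⟩, rfl⟩

theorem card_true : (univ.filter fun i : Row R Q => tyR i = true).card = 2 * R := by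
  have h1 : (univ.filter fun i : Row R Q => tyR i = true) = univ.map ⟨Sum.inl, Sum.inl_injective⟩ := by
    ext i
    rcases i with i | i <;> simp [tyR]
  rw [h1, card_map, card_univ, Fintype.card_fin]

theorem card_false : (univ.filter fun i : Row R Q => tyR i = false).card = 2 * Q := by
  have h1 : (univ.filter fun i : Row R Q => tyR i = false) =
      univ.map ⟨Sum.inr, Sum.inr_injective⟩ := by
    ext i
    rcases i with i | i <;> simp [tyR]
  rw [h1, card_map, card_univ, Fintype.card_fin]

/-- the number of the triples which match given data -/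
theorem card_match_le (τ : Fin (R + Q) → Loc)
    (X : Finset ((Row R Q → Col R Q) × (Row R Q → Col R Q) × Finset (Row R Q)))
    (hX : ∀ x ∈ X, Function.Bijective x.1 ∧ Function.Bijective x.2.1 ∧ Mt τ x.1 x.2.1 x.2.2) :
    X.card ≤ (2 * R).factorial * (2 * Q).factorial * ∏ k, (n1 τ k).factorial := by
  classical
  set S1 : Finset (Row R Q → Col R Q) :=
    univ.filter fun s => Function.Bijective s ∧ ∀ i, (τ (s i).1).1 = tyR i with hS1
  set Bs : (Row R Q → Col R Q) → Finset (Row R Q) :=
    fun s => univ.filter fun i => cmP τ (s i) = true with hBs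
  set S3 : (Row R Q → Col R Q) → Finset (Row R Q → Col R Q) := fun s =>
    univ.filter fun t => Function.Bijective t ∧ ∀ i, q3 τ (t i) = (tyR i, decide (i ∈ Bs s)) with hS3
  have hsub : X ⊆ S1.biUnion fun s => (S3 s).image fun t => (s, t, Bs s) := by
    intro x hx
    obtain ⟨s, t, B⟩ := x
    obtain ⟨hs, ht, h1, h2⟩ := hX _ hx
    simp only at hs ht h1 h2
    have hB : B = Bs s := by
      ext i
      have h3 := congrArg Prod.snd (h1 i)
      simp only [q1] at h3
      simp [hBs, h3]
    rw [mem_biUnion]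
    refine ⟨s, ?_, ?_⟩
    · rw [hS1, mem_filter]
      exact ⟨mem_univ _, hs, fun i => congrArg Prod.fst (h1 i)⟩
    · rw [mem_image]
      refine ⟨t, ?_, by rw [hB]⟩
      rw [hS3, mem_filter]
      exact ⟨mem_univ _, ht, fun i => by rw [h2 i, hB]⟩
  have hc3 : ∀ s ∈ S1, (S3 s).card ≤ ∏ k, (n1 τ k).factorial := by
    intro s hs
    rw [hS1, mem_filter] at hs
    have h1 := card_bij_le (fun i : Row R Q => (tyR i, decide (i ∈ Bs s))) (q3 τ)
    refine (le_of_eq ?_).trans (h1.trans (le_of_eq ?_))
    · rfl
    · refine prod_congr rfl fun k _ => ?_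
      rw [n1, card_lab hs.2.1 (p := fun i => (tyR i, decide (i ∈ Bs s))) (q := q1 τ) ?_ k]
      intro i
      refine Prod.ext (hs.2.2 i) ?_
      simp [q1, hBs]
  have hc1 : S1.card ≤ (2 * R).factorial * (2 * Q).factorial := by
    have h1 := card_bij_le (fun i : Row R Q => tyR i) (fun c : Col R Q => (τ c.1).1)
    rw [Fintype.prod_bool, card_true, card_false] at h1
    exact h1
  calc X.card ≤ (S1.biUnion fun s => (S3 s).image fun t => (s, t, Bs s)).card := card_le_card hsub
    _ ≤ ∑ s ∈ S1, ((S3 s).image fun t => (s, t, Bs s)).card := card_biUnion_le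
    _ ≤ ∑ _s ∈ S1, ∏ k, (n1 τ k).factorial :=
        sum_le_sum fun s hs => card_image_le.trans (hc3 s hs)
    _ = S1.card * ∏ k, (n1 τ k).factorial := by rw [sum_const, smul_eq_mul]
    _ ≤ (2 * R).factorial * (2 * Q).factorial * ∏ k, (n1 τ k).factorial :=
        Nat.mul_le_mul_right _ hc1

/-- the number of the words -/
theorem card_Om_ge :
    (R + Q).choose R * ((2 * R).factorial * (2 * Q).factorial) ≤ (Om R Q).card := by
  classical
  set G : Finset (Fin (R + Q)) → Finset (Row R Q → Col R Q) := fun S =>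
    univ.filter fun s => Function.Bijective s ∧ ∀ i, decide ((s i).1 ∈ S) = tyR i with hG
  have hcard : ∀ S ∈ powersetCard R (univ : Finset (Fin (R + Q))),
      (G S).card = (2 * R).factorial * (2 * Q).factorial := by
    intro S hS
    rw [mem_powersetCard] at hS
    have hT : (univ.filter fun c : Col R Q => decide (c.1 ∈ S) = true).card = 2 * R := by
      have h1 : (univ.filter fun c : Col R Q => decide (c.1 ∈ S) = true) =
          S ×ˢ (univ : Finset Bool) := by
        ext c
        simp
      rw [h1, card_product, hS.2, card_univ, Fintype.card_bool, Nat.mul_comm]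
    have hF : (univ.filter fun c : Col R Q => decide (c.1 ∈ S) = false).card = 2 * Q := by
      have h1 : (univ.filter fun c : Col R Q => decide (c.1 ∈ S) = false) =
          Sᶜ ×ˢ (univ : Finset Bool) := by
        ext c
        simp
      rw [h1, card_product, card_compl, hS.2, card_univ, Fintype.card_bool, Fintype.card_fin,
        Nat.mul_comm]
      omega
    obtain ⟨s0, h0⟩ := exists_bij (fun i : Row R Q => tyR i)
      (fun c : Col R Q => decide (c.1 ∈ S)) (fun k => by
        cases k
        · rw [card_false, hF]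
        · rw [card_true, hT])
    have h1 := card_bij_eq (fun i : Row R Q => tyR i) (fun c : Col R Q => decide (c.1 ∈ S)) s0 h0
    rw [Fintype.prod_bool, card_true, card_false] at h1
    exact h1
  have hdisj : ∀ S ∈ powersetCard R (univ : Finset (Fin (R + Q))),
      ∀ S' ∈ powersetCard R (univ : Finset (Fin (R + Q))), S ≠ S' → Disjoint (G S) (G S') := by
    intro S _ S' _ hne
    rw [disjoint_left]
    intro s hs hs'
    rw [hG, mem_filter] at hs hs'
    apply hne
    ext g
    obtain ⟨i, hi⟩ := hs.2.1.2 (g, false)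
    have h1 := hs.2.2 i
    have h2 := hs'.2.2 i
    rw [hi] at h1 h2
    have h3 : decide (g ∈ S) = decide (g ∈ S') := h1.trans h2.symm
    exact decide_eq_decide.1 h3
  have hsub : (powersetCard R (univ : Finset (Fin (R + Q)))).biUnion G ⊆ Om R Q := by
    intro s hs
    rw [mem_biUnion] at hs
    obtain ⟨S, _, hS⟩ := hs
    rw [hG, mem_filter] at hS
    rw [mem_Om]
    refine ⟨hS.2.1, fun i j hij => ?_⟩
    rw [← hS.2.2 i, ← hS.2.2 j, hij]
  calc (R + Q).choose R * ((2 * R).factorial * (2 * Q).factorial)
      = ∑ S ∈ powersetCard R (univ : Finset (Fin (R + Q))), (G S).card := by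
        rw [sum_congr rfl hcard, sum_const, card_powersetCard, card_univ, Fintype.card_fin,
          smul_eq_mul]
    _ = ((powersetCard R (univ : Finset (Fin (R + Q)))).biUnion G).card :=
        (card_biUnion hdisj).symm
    _ ≤ (Om R Q).card := card_le_card hsub

theorem Om_nonempty (R Q : ℕ) : (Om R Q).Nonempty := by
  rw [← card_pos]
  refine lt_of_lt_of_le ?_ card_Om_ge
  exact Nat.mul_pos (Nat.choose_pos (Nat.le_add_right _ _))
    (Nat.mul_pos (Nat.factorial_pos _) (Nat.factorial_pos _))

end Pool.XP
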