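import Pool.Agent.XD.Par

/-!
# XP: the numbers (row P5)

The chain of growth rates for `κ ^ 2`; all rates are replaced by their square roots.
-/

set_option autoImplicit false

namespace Pool.XP

open Finset Real Pool.XD

theorem sqrt_pow' {x : ℝ} (hx : 0 < x) (b : ℕ) : √(x ^ b) = √x ^ b := by
  have h : 0 < √x := Real.sqrt_pos.2 hx
  rw [Real.sqrt_eq_iff_mul_self_eq_of_pos (by positivity), ← mul_pow, Real.mul_self_sqrt hx.le]

theorem sqrt_pow_mul {x y : ℝ} (hx : 0 < x) (hy : 0 < y) (b e : ℕ) :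
    √(x ^ b * y ^ e) = √x ^ b * √y ^ e := by
  rw [Real.sqrt_mul (by positivity), sqrt_pow' hx, sqrt_pow' hy]

theorem numAll_sqrt {HU HV κ x y x' y' : ℝ} (hHU : 0 < HU) (hHV : 0 < HV) (hκ : 0 ≤ κ)
    (hx : 0 < x) (hy : 0 < y) (hx' : 0 < x') (hy' : 0 < y')
    (h : NumAll HU HV (κ ^ 2) x y x' y') : NumAll √HU √HV κ √x √y √x' √y' := by
  intro b e hbe
  rcases h b e hbe with h1 | h1 | h1
  · left
    have := Real.sqrt_le_sqrt h1
    rwa [sqrt_pow_mul hx' hy', sqrt_pow' hHV] at this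
  · right; left
    have := Real.sqrt_le_sqrt h1
    rwa [sqrt_pow_mul hx' hy', sqrt_pow' hHU] at this
  · right; right
    have := Real.sqrt_le_sqrt h1
    rwa [sqrt_pow_mul hx' hy', Real.sqrt_mul (by positivity), Real.sqrt_sq hκ,
      sqrt_pow_mul hx hy] at this

/-- taking logarithms in the rank inequality -/
theorem pairs_le {A s : ℕ} (hs : 1 ≤ s) (hA : 1 ≤ A) {R Q T K1 K2 : ℕ} {y Bc : ℝ} (hBc : 1 ≤ Bc)
    (hT : 1 ≤ T) (hbal : 2 * y * Q - 2 ≤ R)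
    (h : exp (1 / 2) ^ (2 * R) ≤ T * ((2 * (R + Q) : ℕ) + 1 : ℝ) ^ K1 *
      (exp (1 / 4 - 1 / (8 * (s * A))) ^ (2 * R) * exp (y / 2 - 1 / (8 * (s * A))) ^ (2 * Q)) *
        (Bc * (2 * (R + Q) + 1 : ℝ) ^ K2)) :
    ((R : ℝ) + Q) / (4 * (s * A)) ≤ 1 + log T + (K1 + K2) * log (2 * (R + Q) + 1 : ℝ) + log Bc := by
  have hTr : (0 : ℝ) < T := by exact_mod_cast hT
  have hsA : (0 : ℝ) < s * A := by
    have h1 : (0 : ℝ) < s := by exact_mod_cast hs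
    have h2 : (0 : ℝ) < A := by exact_mod_cast hA
    positivity
  have e0 : ((2 * (R + Q) : ℕ) + 1 : ℝ) = 2 * ((R : ℝ) + Q) + 1 := by push_cast; ring
  rw [e0] at h
  have hgm : (0 : ℝ) < 2 * ((R : ℝ) + Q) + 1 := by positivity
  have h0 := log_le_log (by positivity) h
  rw [exp_mul_exp, log_mul (by positivity) (by positivity), log_mul (by positivity) (by positivity),
    log_mul (by positivity) (by positivity), log_mul (by positivity) (by positivity), log_pow,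
    log_pow, log_pow, log_exp, log_exp] at h0
  push_cast at h0
  have h1 : (1 / 4 - 1 / (8 * (s * A : ℝ))) * (2 * R) + (y / 2 - 1 / (8 * (s * A : ℝ))) * (2 * Q) =
      R / 2 + y * Q - ((R : ℝ) + Q) / (4 * (s * A)) := by
    field_simp
    ring
  rw [h1] at h0
  linarith

/-- the numbers of the pairs of both types -/
theorem exists_RQ {y : ℝ} (hy0 : 1 / 4 ≤ y) (hy1 : y ≤ 1 / 2) {N : ℕ} (h3 : 3 ≤ N) :
    ∃ R Q : ℕ, 1 ≤ R ∧ 1 ≤ Q ∧ R + Q = N ∧ (R : ℝ) ≤ 2 * y * Q ∧ 2 * y * Q - 2 ≤ R := by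
  have hN3' : (3 : ℝ) ≤ N := by exact_mod_cast h3
  have hy2 : 0 < 1 + 2 * y := by linarith
  obtain ⟨z, hz⟩ : ∃ z : ℝ, z = 2 * y * N / (1 + 2 * y) := ⟨_, rfl⟩
  have hzm : z * (1 + 2 * y) = 2 * y * N := by
    rw [hz]
    field_simp
  have hz1 : 1 ≤ z := by
    rw [hz, le_div_iff₀ hy2]
    have h1 : 2 * y * 3 ≤ 2 * y * N := mul_le_mul_of_nonneg_left hN3' (by linarith)
    linarith
  have hz2 : z ≤ N / 2 := by
    rw [hz, div_le_iff₀ hy2]
    have h1 : y * N ≤ 1 / 2 * N := mul_le_mul_of_nonneg_right hy1 (Nat.cast_nonneg _)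
    linarith
  obtain ⟨R, hR⟩ : ∃ R : ℕ, R = ⌊z⌋₊ := ⟨_, rfl⟩
  have hR1 : 1 ≤ R := by
    rw [hR]
    apply Nat.le_floor
    push_cast
    exact hz1
  have hRz : (R : ℝ) ≤ z := by rw [hR]; exact Nat.floor_le (by linarith)
  have hzR : z < R + 1 := by rw [hR]; exact Nat.lt_floor_add_one z
  have hRN : R < N := by
    have h1 : (R : ℝ) < N := by linarith
    exact_mod_cast h1
  obtain ⟨Q, hQ⟩ : ∃ Q : ℕ, Q = N - R := ⟨_, rfl⟩
  have hQ1 : 1 ≤ Q := by omega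
  have hRQ : R + Q = N := by omega
  have hRQr : (R : ℝ) + Q = N := by exact_mod_cast hRQ
  refine ⟨R, Q, hR1, hQ1, hRQ, ?_, ?_⟩
  · have h1 : (R : ℝ) * (1 + 2 * y) ≤ z * (1 + 2 * y) :=
      mul_le_mul_of_nonneg_right hRz hy2.le
    rw [hzm, ← hRQr] at h1
    linarith
  · have h1 : z * (1 + 2 * y) ≤ (R + 1) * (1 + 2 * y) :=
      mul_le_mul_of_nonneg_right hzR.le hy2.le
    rw [hzm, ← hRQr] at h1
    linarith

/-- **ROW P5**, general exponents -/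
theorem xp_final_u (K K2 : ℕ) (Bc : ℝ) (hBc : 1 ≤ Bc) : ∃ C : ℝ, 1 ≤ C ∧
    ∀ k n T S w w0 : ℕ, 1 ≤ T → 2 ≤ S → 1 ≤ w → 1 ≤ w0 →
    ∃ (y : ℝ) (X Y : ℕ → ℝ), 0 < y ∧ y ≤ 1 / 2 ∧ X 0 = 1 ∧ Y 0 = 1 ∧
      (∀ i, 0 < X i) ∧ (∀ i, 0 < Y i) ∧
      (∀ i, i + 1 ≤ 2 * k + 1 → NumAll (exp (1 / 2)) (exp y)
        (S * (n + 1 : ℝ) ^ (K * (w + w0))) (X i) (Y i) (X (i + 1)) (Y (i + 1))) ∧
      ((∀ R Q : ℕ, 1 ≤ R → 1 ≤ Q → 4 * (R + Q) ≤ n → (R : ℝ) ≤ 2 * y * Q →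
          exp (1 / 2) ^ (2 * R) ≤ T * ((2 * (R + Q) : ℕ) + 1 : ℝ) ^ K *
            (X (2 * k + 1) ^ (2 * R) * Y (2 * k + 1) ^ (2 * Q)) *
              (Bc * (2 * (R + Q) + 1 : ℝ) ^ K2)) →
        (n : ℝ) ≤ C * log (2 * n * T) *
          (C * (log S + (w + w0) * log (2 * n))) ^ (Nat.fib (2 * k + 4) - 2)) := by
  have hlB : 0 ≤ log Bc := log_nonneg hBc
  have hKr : (0 : ℝ) ≤ K := Nat.cast_nonneg _
  have hK2r : (0 : ℝ) ≤ K2 := Nat.cast_nonneg _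
  obtain ⟨E1, hE1⟩ : ∃ E1 : ℝ, E1 = 64 * (2 * (1 + log Bc) + (K + K2 + 1)) + 24 := ⟨_, rfl⟩
  obtain ⟨D1, hD1⟩ : ∃ D1 : ℝ, D1 = 18 * (4 * K + 5) := ⟨_, rfl⟩
  have hE1' : 1 ≤ E1 := by
    rw [hE1]
    linarith
  have hD1' : 1 ≤ D1 := by
    rw [hD1]
    linarith
  refine ⟨E1 * D1, one_le_mul_of_one_le_of_one_le hE1' hD1', ?_⟩
  intro k n T S w w0 hT hS hw hw0
  obtain ⟨p, hp⟩ : ∃ p : ℕ, p = Nat.fib (2 * k + 4) - 2 := ⟨_, rfl⟩
  have hSr : (2 : ℝ) ≤ S := by exact_mod_cast hS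
  have hl2 : (0.6931 : ℝ) < log 2 := by
    have := log_two_gt_d9
    linarith
  have hlS : log 2 ≤ log S := log_le_log (by norm_num) hSr
  obtain ⟨κ, hκ⟩ : ∃ κ : ℝ, κ = S * (n + 1 : ℝ) ^ (K * (w + w0)) := ⟨_, rfl⟩
  have hn1 : (1 : ℝ) ≤ n + 1 := by
    have : (0 : ℝ) ≤ n := Nat.cast_nonneg _
    linarith
  have hκ1 : 1 ≤ κ := by
    rw [hκ]
    have := one_le_pow₀ (n := K * (w + w0)) hn1
    nlinarith
  have hlκ : log κ = log S + K * (w + w0) * log (n + 1) := by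
    rw [hκ, log_mul (by positivity) (by positivity), log_pow]
    push_cast
    ring
  have hlκ2 : log (κ ^ 2) = 2 * log κ := by
    rw [log_pow]
    push_cast
    ring
  obtain ⟨σ, hσ⟩ : ∃ σ : ℕ, σ = ⌈4 * log κ⌉₊ := ⟨_, rfl⟩
  have hlκ0 : 0.6931 < log κ := by
    rw [hlκ]
    have : 0 ≤ (K : ℝ) * (w + w0) * log (n + 1) :=
      mul_nonneg (by positivity) (log_nonneg hn1)
    linarith
  have hσ1 : 4 * log κ ≤ σ := by rw [hσ]; exact Nat.le_ceil _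
  have hσ2 : (σ : ℝ) ≤ 4 * log κ + 1 := by
    rw [hσ]
    exact (Nat.ceil_lt_add_one (by linarith)).le
  have hσ0 : 1 ≤ σ := by
    have : (0 : ℝ) < σ := by linarith
    have : 0 < σ := by exact_mod_cast this
    omega
  obtain ⟨A, B, s, X, Y, hs, hB, hBA, hA2, hsA, hX0, hY0, hXp, hYp, hch, hXL, hYL⟩ :=
    growth_chain (2 * k + 1) σ (by omega) hσ0 (κ ^ 2) (one_le_pow₀ hκ1)
      (by rw [hlκ2]; linarith)
  rw [show 2 * k + 1 + 3 = 2 * k + 4 by ring, ← hp] at hsA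
  have hA : 1 ≤ A := hB.trans hBA
  have hAr : (0 : ℝ) < A := by exact_mod_cast hA
  have hBr : (0 : ℝ) < B := by exact_mod_cast hB
  have hBAr : (B : ℝ) ≤ A := by exact_mod_cast hBA
  have hA2r : (A : ℝ) ≤ 2 * B := by exact_mod_cast hA2
  obtain ⟨y, hy⟩ : ∃ y : ℝ, y = (B : ℝ) / A / 2 := ⟨_, rfl⟩
  have hy0 : 1 / 4 ≤ y := by
    rw [hy]
    have : 1 / 2 ≤ (B : ℝ) / A := by
      rw [le_div_iff₀ hAr]
      linarith
    linarith
  have hy1 : y ≤ 1 / 2 := by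
    rw [hy]
    have : (B : ℝ) / A ≤ 1 := by
      rw [div_le_one hAr]
      exact hBAr
    linarith
  refine ⟨y, fun i => √(X i), fun i => √(Y i), by linarith, hy1, ?_, ?_,
    fun i => Real.sqrt_pos.2 (hXp i), fun i => Real.sqrt_pos.2 (hYp i), ?_, ?_⟩
  · beta_reduce
    rw [hX0, Real.sqrt_one]
  · beta_reduce
    rw [hY0, Real.sqrt_one]
  · intro i hi
    have h1 := numAll_sqrt (exp_pos _) (exp_pos _) (by linarith) (hXp i) (hYp i) (hXp (i + 1))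
      (hYp (i + 1)) (hch i hi)
    rw [← exp_half, ← exp_half, ← hy, hκ] at h1
    exact h1
  intro hg
  beta_reduce at hg
  rw [hXL, hYL, ← exp_half, ← exp_half] at hg
  have e1 : (1 / 2 - 1 / (4 * (s * A : ℝ))) / 2 = 1 / 4 - 1 / (8 * (s * A)) := by
    field_simp
    ring
  have e2 : ((B : ℝ) / A / 2 - 1 / (4 * (s * A : ℝ))) / 2 = y / 2 - 1 / (8 * (s * A)) := by
    rw [hy]
    field_simp
    ring
  rw [e1, e2] at hg
  rcases Nat.eq_zero_or_pos n with hn0 | hn0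
  · subst hn0
    simp
  have hnr : (1 : ℝ) ≤ n := by exact_mod_cast hn0
  have hTr : (1 : ℝ) ≤ T := by exact_mod_cast hT
  have hlT : 0 ≤ log T := log_nonneg hTr
  obtain ⟨Λ, hΛ⟩ : ∃ Λ : ℝ, Λ = log S + (w + w0) * log (2 * n) := ⟨_, rfl⟩
  have hl2n : log 2 ≤ log (2 * n) := log_le_log (by norm_num) (by linarith)
  have hln : log (n + 1) ≤ log (2 * n) := log_le_log (by linarith) (by linarith)
  have hww : (2 : ℝ) ≤ w + w0 := by
    have h1 : (1 : ℝ) ≤ w := by exact_mod_cast hw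
    have h2 : (1 : ℝ) ≤ w0 := by exact_mod_cast hw0
    linarith
  have hwl : 2 * log 2 ≤ (w + w0) * log (2 * n) :=
    mul_le_mul hww hl2n (by linarith) (by linarith)
  have hΛ1 : 1 ≤ Λ := by rw [hΛ]; linarith
  have hlκΛ : log κ ≤ (K + 1) * Λ := by
    rw [hlκ, hΛ]
    have h1 : (K : ℝ) * ((w + w0) * log (n + 1)) ≤ K * ((w + w0) * log (2 * n)) :=
      mul_le_mul_of_nonneg_left (mul_le_mul_of_nonneg_left hln (by linarith)) (Nat.cast_nonneg _)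
    have h2 : (0 : ℝ) ≤ K * log S := mul_nonneg (Nat.cast_nonneg _) (by linarith)
    have h3 : 0 ≤ ((w : ℝ) + w0) * log (2 * n) := by linarith
    linarith
  have hσΛ : 18 * (σ : ℝ) ≤ D1 * Λ := by
    rw [hD1]
    linarith
  obtain ⟨P, hP⟩ : ∃ P : ℝ, P = (D1 * Λ) ^ p := ⟨_, rfl⟩
  have hP1 : 1 ≤ P := by
    rw [hP]
    exact one_le_pow₀ (one_le_mul_of_one_le_of_one_le hD1' hΛ1)
  -- the size of `s A`
  have hsAr : (s : ℝ) * A ≤ 4 * P := by
    have h1 : ((s * A : ℕ) : ℝ) ≤ ((4 * (18 * σ) ^ p : ℕ) : ℝ) := by exact_mod_cast hsA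
    push_cast at h1
    have h2 : (18 * (σ : ℝ)) ^ p ≤ (D1 * Λ) ^ p :=
      pow_le_pow_left₀ (by positivity) hσΛ p
    rw [hP]
    linarith
  have hsA0 : (0 : ℝ) < s * A := by
    have h1 : (0 : ℝ) < s := by exact_mod_cast hs
    positivity
  obtain ⟨G, hG⟩ : ∃ G : ℝ, G = log (2 * n) + log T := ⟨_, rfl⟩
  have hG1 : 0.6931 ≤ G := by rw [hG]; linarith
  obtain ⟨N, hN⟩ : ∃ N : ℕ, N = n / 4 := ⟨_, rfl⟩
  have hN4 : 4 * N ≤ n := by omega
  have hN3 : n ≤ 4 * N + 3 := by omega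
  have hN3r : (n : ℝ) ≤ 4 * N + 3 := by exact_mod_cast hN3
  -- the main inequality
  have hmain : (N : ℝ) ≤ 16 * P * ((2 * (1 + log Bc) + (K + K2 + 1)) * G) + 2 := by
    have hlast : 0 ≤ 16 * P * ((2 * (1 + log Bc) + (K + K2 + 1)) * G) := by positivity
    rcases Nat.lt_or_ge N 3 with h3 | h3
    · have : (N : ℝ) ≤ 2 := by exact_mod_cast (show N ≤ 2 by omega)
      linarith
    · obtain ⟨R, Q, hR1, hQ1, hRQ, hb1, hb2⟩ := exists_RQ hy0 hy1 h3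
      have hRQr : (R : ℝ) + Q = N := by exact_mod_cast hRQ
      have h4 := hg R Q hR1 hQ1 (by omega) hb1
      have h5 := pairs_le hs hA hBc hT hb2 h4
      rw [hRQr] at h5
      have h6 : log (2 * (N : ℝ) + 1) ≤ log (2 * n) := by
        apply log_le_log (by positivity)
        have : 4 * (N : ℝ) ≤ n := by exact_mod_cast hN4
        linarith
      have h7 : ((K : ℝ) + K2) * log (2 * (N : ℝ) + 1) ≤ (K + K2) * log (2 * n) :=
        mul_le_mul_of_nonneg_left h6 (by positivity)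
      have h8 : 1 + log T + (K + K2) * log (2 * n) + log Bc ≤
          (2 * (1 + log Bc) + (K + K2 + 1)) * G := by
        have h9 : 0 ≤ ((K : ℝ) + K2) * log T := mul_nonneg (by positivity) hlT
        have h10 : (1 + log Bc) * 1 ≤ (1 + log Bc) * (2 * G) :=
          mul_le_mul_of_nonneg_left (by linarith) (by linarith)
        have h11 : log T ≤ G := by rw [hG]; linarith
        have h12 : (2 * (1 + log Bc) + (K + K2 + 1)) * G =
            (1 + log Bc) * (2 * G) + ((K + K2) * log (2 * n) + (K + K2) * log T) + G := by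
          rw [hG]
          ring
        rw [h12]
        linarith
      have h9 : (N : ℝ) / (4 * (s * A)) ≤ (2 * (1 + log Bc) + (K + K2 + 1)) * G := by linarith
      rw [div_le_iff₀ (by positivity)] at h9
      have h10 : 0 ≤ (2 * (1 + log Bc) + (K + K2 + 1)) * G := by positivity
      have h11 : (2 * (1 + log Bc) + (K + K2 + 1)) * G * (4 * (s * A)) ≤
          (2 * (1 + log Bc) + (K + K2 + 1)) * G * (4 * (4 * P)) :=
        mul_le_mul_of_nonneg_left (by linarith) h10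
      linarith
  have hlog : log (2 * n * T) = G := by
    rw [hG]
    exact log_mul (by positivity) (by positivity)
  rw [← hΛ, hlog, ← hp]
  have hPG : 0.6931 ≤ P * G := hG1.trans (le_mul_of_one_le_left (by linarith) hP1)
  have hfin1 : (n : ℝ) ≤ E1 * G * P := by
    rw [hE1]
    have h1 : (n : ℝ) ≤ 64 * P * ((2 * (1 + log Bc) + (K + K2 + 1)) * G) + 11 := by linarith
    have h2 : (64 * (2 * (1 + log Bc) + (K + K2 + 1)) + 24) * G * P =
        64 * P * ((2 * (1 + log Bc) + (K + K2 + 1)) * G) + 24 * (P * G) := by ring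
    rw [h2]
    linarith
  have hΛ0 : 0 ≤ Λ := by linarith
  have hG0 : 0 ≤ G := by linarith
  calc (n : ℝ) ≤ E1 * G * P := hfin1
    _ ≤ E1 * D1 * G * (E1 * D1 * Λ) ^ p := by
      apply mul_le_mul
      · exact mul_le_mul_of_nonneg_right
          (le_mul_of_one_le_right (zero_le_one.trans hE1') hD1') hG0
      · rw [hP]
        apply pow_le_pow_left₀ (by positivity)
        exact mul_le_mul_of_nonneg_right
          (le_mul_of_one_le_left (zero_le_one.trans hD1') hE1') hΛ0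
      · positivity
      · positivity

/-- **ROW P5** -/
theorem xp_final (Bc : ℝ) (hBc : 1 ≤ Bc) : ∃ C : ℝ, 1 ≤ C ∧
    ∀ k n T S w w0 : ℕ, 1 ≤ T → 2 ≤ S → 1 ≤ w → 1 ≤ w0 →
    ∃ (y : ℝ) (X Y : ℕ → ℝ), 0 < y ∧ y ≤ 1 / 2 ∧ X 0 = 1 ∧ Y 0 = 1 ∧
      (∀ i, 0 < X i) ∧ (∀ i, 0 < Y i) ∧
      (∀ d ≤ n, ∀ i ≤ 2 * k, NumD d (S * (d + 1) ^ (8 * (w0 + w) + 16)) (Real.exp (1 / 2))
        (Real.exp y) (X i) (Y i) (X (i + 1)) (Y (i + 1))) ∧
      ((∀ R Q : ℕ, 1 ≤ R → 1 ≤ Q → 4 * (R + Q) ≤ n → (R : ℝ) ≤ 2 * y * Q →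
          Real.exp (1 / 2) ^ (2 * R) ≤ T * ((2 * (R + Q) : ℕ) + 1 : ℝ) ^ 16 *
            (X (2 * k + 1) ^ (2 * R) * Y (2 * k + 1) ^ (2 * Q)) *
              (Bc * (2 * (R + Q) + 1 : ℝ) ^ 6)) →
        (n : ℝ) ≤ C * Real.log (2 * n * T) *
          (C * (Real.log S + (w + w0) * Real.log (2 * n))) ^ (Nat.fib (2 * k + 4) - 2)) := by
  obtain ⟨C, hC, h⟩ := xp_final_u 16 6 Bc hBc
  refine ⟨C, hC, ?_⟩
  intro k n T S w w0 hT hS hw hw0
  obtain ⟨y, X, Y, hy0, hy1, hX0, hY0, hX, hY, hnum, hfin⟩ := h k n T S w w0 hT hS hw hw0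
  refine ⟨y, X, Y, hy0, hy1, hX0, hY0, hX, hY, ?_, hfin⟩
  intro d hd i hi b e hbe _
  rcases hnum i (by omega) b e hbe with h1 | h1 | h1
  · exact Or.inr (Or.inl h1)
  · exact Or.inl h1
  · refine Or.inr (Or.inr (le_trans ?_ h1))
    apply mul_le_mul_of_nonneg_right
    · apply mul_le_mul_of_nonneg_left _ (Nat.cast_nonneg _)
      have h2 : ((d : ℝ) + 1) ≤ n + 1 := by
        have : (d : ℝ) ≤ n := by exact_mod_cast hd
        linarith
      have h3 : (0 : ℝ) ≤ (d : ℝ) + 1 := by positivity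
      calc ((d : ℝ) + 1) ^ (8 * (w0 + w) + 16) ≤ ((n : ℝ) + 1) ^ (8 * (w0 + w) + 16) :=
            pow_le_pow_left₀ h3 h2 _
        _ ≤ ((n : ℝ) + 1) ^ (16 * (w + w0)) := by
          apply pow_le_pow_right₀
          · have : (0 : ℝ) ≤ n := Nat.cast_nonneg _
            linarith
          · omega
    · have := hX i
      have := hY i
      positivity

end Pool.XP
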