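import Pool.Agent.XP.Defs
import Pool.Agent.XD.Cycle

/-!
# XP, row P2: counting the 4-cycles of the matrix of the polynomial of a code
-/

set_option autoImplicit false
set_option linter.unusedSectionVars false

namespace Pool.XP

open Finset Pool.XD

variable {I A : Type} [Fintype I] [DecidableEq I] [Fintype A] [DecidableEq A]

section words

/-- exponent vector of a word -/
def ind (f : I → A) (l : I × A) : ℕ := if l.2 = f l.1 then 1 else 0

/-- the exponent of the monomial of a word -/
noncomputable def ex (s : I → A) : I × A →₀ ℕ := ∑ i, Finsupp.single (i, s i) 1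

theorem ex_apply (s : I → A) (l : I × A) : ex s l = ind s l := by
  unfold ex ind
  rw [Finsupp.finsetSum_apply]
  rw [Finset.sum_eq_single l.1]
  · rw [Finsupp.single_apply]
    obtain ⟨i, p⟩ := l
    by_cases h : p = s i
    · subst h
      rw [if_pos rfl, if_pos rfl]
    · rw [if_neg h, if_neg]
      intro h2
      exact h (congrArg Prod.snd h2).symm
  · intro i _ hne
    rw [Finsupp.single_apply, if_neg]
    intro h2
    exact hne (congrArg Prod.fst h2)
  · intro h
    exact absurd (mem_univ _) h

theorem codeQ_eq (Om : Finset (I → A)) (R : Type) [CommRing R] :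
    codeQ Om R = ∑ s ∈ Om, MvPolynomial.monomial (ex s) 1 := by
  unfold codeQ
  refine sum_congr rfl fun s _ => ?_
  unfold ex
  rw [MvPolynomial.monomial_sum_one]
  rfl

theorem ind_injective {s t : I → A} (h : ∀ l, ind s l = ind t l) : s = t := by
  funext i
  have h1 := h (i, s i)
  unfold ind at h1
  rw [if_pos rfl] at h1
  by_contra h2
  have h2' : ¬ ((i, s i).2 = t (i, s i).1) := h2
  rw [if_neg h2'] at h1
  omega

theorem ex_injective : Function.Injective (ex : (I → A) → _) := by
  intro s t h
  refine ind_injective fun l => ?_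
  rw [← ex_apply, ← ex_apply, h]

theorem coeff_codeQ (Om : Finset (I → A)) (R : Type) [CommRing R] (s : I → A) (hs : s ∈ Om) :
    MvPolynomial.coeff (ex s) (codeQ Om R) = 1 := by
  classical
  rw [codeQ_eq, MvPolynomial.coeff_sum, Finset.sum_eq_single s]
  · rw [MvPolynomial.coeff_monomial, if_pos rfl]
  · intro s' _ hne
    rw [MvPolynomial.coeff_monomial, if_neg]
    exact fun h => hne (ex_injective h)
  · intro h
    exact absurd hs h

theorem coeff_codeQ_eq_zero (Om : Finset (I → A)) (R : Type) [CommRing R] (m : I × A →₀ ℕ)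
    (hm : ∀ s ∈ Om, ex s ≠ m) : MvPolynomial.coeff m (codeQ Om R) = 0 := by
  classical
  rw [codeQ_eq, MvPolynomial.coeff_sum]
  refine Finset.sum_eq_zero fun s hs => ?_
  rw [MvPolynomial.coeff_monomial, if_neg (hm s hs)]

/-- the entry `(a, g)` belongs to the word `s` -/
def EntS (ty : I → Bool) (s : I → A) (a g : I × A → ℕ) : Prop :=
  ∀ l : I × A, if rty ty l then a l = g l + ind s l else g l = a l + ind s l

theorem entS_iff (ty : I → Bool) (s : I → A) (a g : I × A → ℕ) :
    EntS ty s a g ↔ Adm (rty ty) a g ∧ gap (rty ty) a g = ex s := by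
  constructor
  · intro h
    refine ⟨fun l => ?_, ?_⟩
    · have := h l
      split_ifs at this ⊢ <;> omega
    · ext l
      have := h l
      rw [ex_apply]
      show (if rty ty l then a l - g l else g l - a l) = _
      split_ifs at this ⊢ <;> omega
  · rintro ⟨h1, h2⟩ l
    have e1 := h1 l
    have e2 := DFunLike.congr_fun h2 l
    rw [ex_apply] at e2
    have e3 : (if rty ty l then a l - g l else g l - a l) = ind s l := e2
    split_ifs at e1 e3 ⊢ <;> omega

/-- the entry is nonzero -/
def Nz (ty : I → Bool) (Om : Finset (I → A)) {a b a' b' : ℕ}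
    (α : Box (rty ty : I × A → Bool) a b) (γ : Box (rty ty : I × A → Bool) a' b') : Prop :=
  ∃ s ∈ Om, EntS ty s α.1 γ.1

open Classical in
theorem opM_codeQ (ty : I → Bool) (Om : Finset (I → A)) {a b a' b' : ℕ}
    (α : Box (rty ty : I × A → Bool) a b) (γ : Box (rty ty : I × A → Bool) a' b') :
    opM (rty ty) (codeQ Om ℝ) a b a' b' α γ = if Nz ty Om α γ then 1 else 0 := by
  unfold opM
  by_cases h : Nz ty Om α γ
  · rw [if_pos h]
    obtain ⟨s, hsO, hs⟩ := h
    obtain ⟨h1, h2⟩ := (entS_iff ty s _ _).1 hs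
    rw [if_pos h1, h2, coeff_codeQ Om ℝ s hsO]
  · rw [if_neg h]
    split_ifs with h1
    · refine coeff_codeQ_eq_zero _ _ _ fun s hsO hs => h ⟨s, hsO, (entS_iff ty s _ _).2 ⟨h1, hs.symm⟩⟩
    · rfl

end words

section cycles

variable {ty : I → Bool} {Om : Finset (I → A)}

/-- the required letters -/
def req (ty : I → Bool) (s : I → A) (B : Finset I) (l : I × A) : ℕ :=
  if (l.1 ∈ B ↔ ty l.1 = false) ∧ l.2 = s l.1 then 1 else 0

/-- the exchange set of a cycle -/
def bs (ty : I → Bool) (s1 s2 s3 : I → A) : Finset I :=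
  univ.filter fun i => if ty i = true then s2 i = s3 i else s2 i ≠ s1 i

variable {s1 s2 s3 s4 : I → A} {a a' g g' : I × A → ℕ}

theorem mem_bs (i : I) : i ∈ bs ty s1 s2 s3 ↔ if ty i = true then s2 i = s3 i else s2 i ≠ s1 i := by
  unfold bs
  rw [mem_filter]
  simp

theorem cycle_four (h1 : EntS ty s1 a g) (h2 : EntS ty s2 a' g) (h3 : EntS ty s3 a' g')
    (h4 : EntS ty s4 a g') (i : I) :
    (s2 i = s1 i ∧ s4 i = s3 i) ∨ (s2 i = s3 i ∧ s4 i = s1 i) := by
  apply Pool.XD.four
  intro l
  have e1 := h1 (i, l)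
  have e2 := h2 (i, l)
  have e3 := h3 (i, l)
  have e4 := h4 (i, l)
  simp only [ind, rty] at e1 e2 e3 e4
  cases hi : ty i
  · simp only [hi, Bool.false_eq_true, if_false] at e1 e2 e3 e4
    omega
  · simp only [hi, if_true] at e1 e2 e3 e4
    omega

theorem cycle_mix (h1 : EntS ty s1 a g) (h2 : EntS ty s2 a' g) (h3 : EntS ty s3 a' g')
    (h4 : EntS ty s4 a g') :
    s4 = mixB (bs ty s1 s2 s3) s1 s3 ∧ s2 = mixB (bs ty s1 s2 s3) s3 s1 := by
  have key : ∀ i, s4 i = mixB (bs ty s1 s2 s3) s1 s3 i ∧ s2 i = mixB (bs ty s1 s2 s3) s3 s1 i := by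
    intro i
    have hf := cycle_four h1 h2 h3 h4 i
    unfold mixB
    have hm := mem_bs (ty := ty) (s1 := s1) (s2 := s2) (s3 := s3) i
    by_cases hi : ty i = true
    · rw [if_pos hi] at hm
      by_cases h : s2 i = s3 i
      · rw [if_pos (hm.2 h), if_pos (hm.2 h)]
        rcases hf with h5 | h5
        · exact ⟨by rw [h5.2, ← h, h5.1], h⟩
        · exact ⟨h5.2, h5.1⟩
      · rw [if_neg (fun hh => h (hm.1 hh)), if_neg (fun hh => h (hm.1 hh))]
        rcases hf with h5 | h5
        · exact ⟨h5.2, h5.1⟩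
        · exact absurd h5.1 h
    · rw [if_neg hi] at hm
      by_cases h : s2 i = s1 i
      · rw [if_neg (fun hh => (hm.1 hh) h), if_neg (fun hh => (hm.1 hh) h)]
        rcases hf with h5 | h5
        · exact ⟨h5.2, h5.1⟩
        · exact ⟨by rw [h5.2, ← h, h5.1], h⟩
      · rw [if_pos (hm.2 h), if_pos (hm.2 h)]
        rcases hf with h5 | h5
        · exact absurd h5.1 h
        · exact ⟨h5.2, h5.1⟩
  exact ⟨funext fun i => (key i).1, funext fun i => (key i).2⟩

/-- the common part of the first entry -/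
def cycMin (ty : I → Bool) (a g : I × A → ℕ) (l : I × A) : ℕ := if rty ty l then g l else a l

theorem cycle_req (h1 : EntS ty s1 a g) (h2 : EntS ty s2 a' g) (h3 : EntS ty s3 a' g')
    (h4 : EntS ty s4 a g') (l : I × A) :
    req ty s3 (bs ty s1 s2 s3) l ≤ cycMin ty a g l := by
  obtain ⟨i, p⟩ := l
  have hm := mem_bs (ty := ty) (s1 := s1) (s2 := s2) (s3 := s3) i
  unfold req cycMin rty
  by_cases h : (i ∈ bs ty s1 s2 s3 ↔ ty i = false) ∧ p = s3 i
  · obtain ⟨hs, hp⟩ := h
    have hp' : p = s3 i := hp
    have hf := cycle_four h1 h2 h3 h4 i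
    have e1 := h1 (i, p)
    have e2 := h2 (i, p)
    have e4 := h4 (i, p)
    simp only [ind, rty] at e1 e2 e4
    have h01 : (if ((i, p).1 ∈ bs ty s1 s2 s3 ↔ ty (i, p).1 = false) ∧ (i, p).2 = s3 (i, p).1
        then 1 else 0) ≤ 1 := by split_ifs <;> omega
    refine le_trans h01 ?_
    cases hi : ty i
    · rw [hi] at hs hm
      simp only [Bool.false_eq_true, if_false] at hm
      have hne : s2 i ≠ s1 i := hm.1 (hs.2 rfl)
      simp only [hi, Bool.false_eq_true, if_false] at e1 e2 e4
      have hf' : s2 i = s3 i := by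
        rcases hf with h5 | h5
        · exact absurd h5.1 hne
        · exact h5.1
      have n1 : ¬ p = s1 i := by
        rw [hp', ← hf']
        exact hne
      have n2 : p = s2 i := by rw [hf', hp']
      rw [if_neg n1] at e1
      rw [if_pos n2] at e2
      simp only [Bool.false_eq_true, if_false]
      omega
    · rw [hi] at hs hm
      simp only [if_true] at hm
      have hne : ¬ s2 i = s3 i := fun hh => by
        have := hs.1 (hm.2 hh)
        cases this
      simp only [hi, if_true] at e1 e2 e4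
      have hf' : s2 i = s1 i ∧ s4 i = s3 i := by
        rcases hf with h5 | h5
        · exact h5
        · exact absurd h5.1 hne
      have n1 : ¬ p = s1 i := by
        rw [hp', ← hf'.1]
        exact fun e => hne e.symm
      have n4 : p = s4 i := by rw [hf'.2, hp']
      rw [if_neg n1] at e1
      rw [if_pos n4] at e4
      simp only [if_true]
      omega
  · rw [if_neg h]
    exact Nat.zero_le _

theorem sum_ind_true (f : I → A) :
    (∑ l : I × A, if rty ty l then ind f l else 0) =
      (univ.filter fun i : I => ty i = true).card := by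
  rw [Fintype.sum_prod_type, card_filter]
  refine sum_congr rfl fun i _ => ?_
  unfold rty ind
  cases hi : ty i <;> simp [hi]

theorem sum_ind_false (f : I → A) :
    (∑ l : I × A, if rty ty l then 0 else ind f l) =
      (univ.filter fun i : I => ty i = false).card := by
  rw [Fintype.sum_prod_type, card_filter]
  refine sum_congr rfl fun i _ => ?_
  unfold rty ind
  cases hi : ty i <;> simp [hi]

theorem sum_req_true (s : I → A) (B : Finset I) :
    (∑ l : I × A, if rty ty l then req ty s B l else 0) =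
      (univ.filter fun i : I => ty i = true ∧ i ∉ B).card := by
  rw [Fintype.sum_prod_type, card_filter]
  refine sum_congr rfl fun i _ => ?_
  unfold rty req
  by_cases hB : i ∈ B <;> cases hi : ty i <;> simp [hi, hB]

theorem sum_req_false (s : I → A) (B : Finset I) :
    (∑ l : I × A, if rty ty l then 0 else req ty s B l) =
      (B.filter fun i => ty i = false).card := by
  rw [Fintype.sum_prod_type]
  have h : (B.filter fun i => ty i = false).card =
      (univ.filter fun i : I => ty i = false ∧ i ∈ B).card := by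
    congr 1
    ext i
    simp only [mem_filter, mem_univ, true_and]
    exact and_comm
  rw [h, card_filter]
  refine sum_congr rfl fun i _ => ?_
  unfold rty req
  by_cases hB : i ∈ B <;> cases hi : ty i <;> simp [hi, hB]

theorem card_add (B : Finset I) :
    (B.filter fun i => ty i = true).card + (univ.filter fun i : I => ty i = true ∧ i ∉ B).card =
      (univ.filter fun i : I => ty i = true).card := by
  rw [← Finset.card_union_of_disjoint]
  · congr 1
    ext i
    simp only [mem_union, mem_filter, mem_univ, true_and]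
    tauto
  · rw [Finset.disjoint_left]
    intro i h1 h2
    rw [mem_filter] at h1 h2
    exact h2.2.2 h1.1

/-- the cycles -/
abbrev Cyc (ty : I → Bool) (Om : Finset (I → A)) (a b a' b' : ℕ) : Type :=
  {x : (Box (rty ty : I × A → Bool) a b × Box (rty ty : I × A → Bool) a b) ×
      (Box (rty ty : I × A → Bool) a' b' × Box (rty ty : I × A → Bool) a' b') //
    (Nz ty Om x.1.1 x.2.1 ∧ Nz ty Om x.1.2 x.2.1) ∧ (Nz ty Om x.1.1 x.2.2 ∧ Nz ty Om x.1.2 x.2.2)}

/-- the triples: two words and an exchange set -/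
def trs (Om : Finset (I → A)) : Finset ((I → A) × (I → A) × Finset I) :=
  (Om ×ˢ Om ×ˢ (univ : Finset (Finset I))).filter
    fun p => mixB p.2.2 p.1 p.2.1 ∈ Om ∧ mixB p.2.2 p.2.1 p.1 ∈ Om

/-- the target of the injection -/
abbrev Tgt (ty : I → Bool) (Om : Finset (I → A)) (r a b : ℕ) : Type :=
  (p : {p // p ∈ trs Om}) ×
    {_δ : Box (rty ty : I × A → Bool) (a - (r - (p.1.2.2.filter fun i => ty i = true).card))
      (b - (p.1.2.2.filter fun i => ty i = false).card) //
        (p.1.2.2.filter fun i => ty i = false).card ≤ b}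

/-- the injection -/
theorem exists_injection (LU LV r E : ℕ) (hr : r = (univ.filter fun i : I => ty i = true).card) :
    ∃ Φ : Cyc ty Om LU LV (LU - r) (LV + E) → Tgt ty Om r (LU - r) LV,
      Function.Injective Φ := by
  have key : ∀ x : Cyc ty Om LU LV (LU - r) (LV + E), ∃ s1 s2 s3 s4 : I → A,
      (s1 ∈ Om ∧ s2 ∈ Om ∧ s3 ∈ Om ∧ s4 ∈ Om) ∧
      EntS ty s1 x.1.1.1.1 x.1.2.1.1 ∧ EntS ty s2 x.1.1.2.1 x.1.2.1.1 ∧
      EntS ty s3 x.1.1.2.1 x.1.2.2.1 ∧ EntS ty s4 x.1.1.1.1 x.1.2.2.1 := by
    rintro ⟨x, ⟨⟨s1, m1, h1⟩, ⟨s2, m2, h2⟩⟩, ⟨⟨s4, m4, h4⟩, ⟨s3, m3, h3⟩⟩⟩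
    exact ⟨s1, s2, s3, s4, ⟨m1, m2, m3, m4⟩, h1, h2, h3, h4⟩
  choose s1 s2 s3 s4 hOm h1 h2 h3 h4 using key
  have hle := fun x l => cycle_req (h1 x) (h2 x) (h3 x) (h4 x) l
  have hmix := fun x => cycle_mix (h1 x) (h2 x) (h3 x) (h4 x)
  let B := fun x => bs ty (s1 x) (s2 x) (s3 x)
  have hk0 : ∀ x, (univ.filter fun i : I => ty i = true ∧ i ∉ B x).card =
      r - ((B x).filter fun i => ty i = true).card := by
    intro x
    have := card_add (ty := ty) (B x)
    omega
  let δ := fun (x : Cyc ty Om LU LV (LU - r) (LV + E)) (l : I × A) =>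
    cycMin ty x.1.1.1.1 x.1.2.1.1 l - req ty (s3 x) (B x) l
  have hδ1 : ∀ x, (∑ l, if rty ty l then δ x l else 0) =
      LU - r - (r - ((B x).filter fun i => ty i = true).card) := by
    intro x
    have e1 := sum_req_true (ty := ty) (s3 x) (B x)
    have e2 := x.1.2.1.2.1
    have e3 : (∑ l, if rty ty l then δ x l else 0) +
        (∑ l, if rty ty l then req ty (s3 x) (B x) l else 0) =
        ∑ l, if rty ty l then x.1.2.1.1 l else 0 := by
      rw [← sum_add_distrib]
      refine sum_congr rfl fun l _ => ?_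
      have := hle x l
      unfold cycMin at this
      show (if rty ty l then (cycMin ty x.1.1.1.1 x.1.2.1.1 l - req ty (s3 x) (B x) l) else 0) +
        _ = _
      unfold cycMin
      split_ifs at this ⊢
      · exact Nat.sub_add_cancel this
      · rfl
    rw [e1, e2, hk0] at e3
    omega
  have hδ3 : ∀ x, (∑ l, if rty ty l then 0 else δ x l) +
      ((B x).filter fun i => ty i = false).card = LV := by
    intro x
    have e1 := sum_req_false (ty := ty) (s3 x) (B x)
    have e2 := x.1.1.1.2.2
    have e3 : (∑ l, if rty ty l then 0 else δ x l) +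
        (∑ l, if rty ty l then 0 else req ty (s3 x) (B x) l) =
        ∑ l, if rty ty l then 0 else x.1.1.1.1 l := by
      rw [← sum_add_distrib]
      refine sum_congr rfl fun l _ => ?_
      have := hle x l
      unfold cycMin at this
      show (if rty ty l then 0 else (cycMin ty x.1.1.1.1 x.1.2.1.1 l - req ty (s3 x) (B x) l)) +
        _ = _
      unfold cycMin
      split_ifs at this ⊢
      · rfl
      · exact Nat.sub_add_cancel this
    rw [e1, e2] at e3
    exact e3
  have hδ2 : ∀ x, (∑ l, if rty ty l then 0 else δ x l) =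
      LV - ((B x).filter fun i => ty i = false).card := by
    intro x
    have := hδ3 x
    omega
  have hmem : ∀ x, (s1 x, s3 x, B x) ∈ trs Om := by
    intro x
    obtain ⟨m1, m2, m3, m4⟩ := hOm x
    unfold trs
    rw [mem_filter, mem_product, mem_product]
    refine ⟨⟨m1, m3, mem_univ _⟩, ?_, ?_⟩
    · rw [(hmix x).1] at m4
      exact m4
    · rw [(hmix x).2] at m2
      exact m2
  let Φ : Cyc ty Om LU LV (LU - r) (LV + E) → Tgt ty Om r (LU - r) LV := fun x =>
    ⟨⟨(s1 x, s3 x, B x), hmem x⟩,
      ⟨⟨δ x, hδ1 x, hδ2 x⟩, by have := hδ3 x; show ((B x).filter fun i => ty i = false).card ≤ LV; omega⟩⟩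
  let Ψ : Tgt ty Om r (LU - r) LV → ((I → A) × (I → A) × Finset I) × (I × A → ℕ) := fun t =>
    (t.1.1, t.2.1.1)
  refine ⟨Φ, fun x y hxy => ?_⟩
  have hΨ : (((s1 x, s3 x, B x) : (I → A) × (I → A) × Finset I), δ x) =
    ((s1 y, s3 y, B y), δ y) := congrArg Ψ hxy
  have e1 : s1 x = s1 y := congrArg (fun t => t.1.1) hΨ
  have e3 : s3 x = s3 y := congrArg (fun t => t.1.2.1) hΨ
  have e0 : B x = B y := congrArg (fun t => t.1.2.2) hΨ
  have e4 : δ x = δ y := congrArg (fun t => t.2) hΨ
  have hcm : ∀ l, cycMin ty x.1.1.1.1 x.1.2.1.1 l = cycMin ty y.1.1.1.1 y.1.2.1.1 l := by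
    intro l
    have a1 : cycMin ty x.1.1.1.1 x.1.2.1.1 l - req ty (s3 x) (B x) l =
      cycMin ty y.1.1.1.1 y.1.2.1.1 l - req ty (s3 y) (B y) l := congrFun e4 l
    have a2 : req ty (s3 x) (B x) l ≤ cycMin ty x.1.1.1.1 x.1.2.1.1 l := hle x l
    have a3 : req ty (s3 y) (B y) l ≤ cycMin ty y.1.1.1.1 y.1.2.1.1 l := hle y l
    rw [e0, e3] at a1 a2
    omega
  have hm : s2 x = s2 y := by
    rw [(hmix x).2, (hmix y).2]
    have : bs ty (s1 x) (s2 x) (s3 x) = bs ty (s1 y) (s2 y) (s3 y) := e0
    rw [this, e1, e3]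
  have hg : ∀ l, x.1.2.1.1 l = y.1.2.1.1 l := by
    intro l
    have a1 := hcm l
    have a2 := h1 x l
    have a3 := h1 y l
    rw [e1] at a2
    unfold cycMin at a1
    split_ifs at a1 a2 a3 <;> omega
  have ha : ∀ l, x.1.1.1.1 l = y.1.1.1.1 l := by
    intro l
    have a1 := hg l
    have a2 := h1 x l
    have a3 := h1 y l
    rw [e1] at a2
    split_ifs at a2 a3 <;> omega
  have ha' : ∀ l, x.1.1.2.1 l = y.1.1.2.1 l := by
    intro l
    have a1 := hg l
    have a2 := h2 x l
    have a3 := h2 y l
    rw [hm] at a2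
    split_ifs at a2 a3 <;> omega
  have hg' : ∀ l, x.1.2.2.1 l = y.1.2.2.1 l := by
    intro l
    have a1 := ha' l
    have a2 := h3 x l
    have a3 := h3 y l
    rw [e3] at a2
    split_ifs at a2 a3 <;> omega
  apply Subtype.ext
  refine Prod.ext (Prod.ext ?_ ?_) (Prod.ext ?_ ?_)
  · exact Subtype.ext (funext ha)
  · exact Subtype.ext (funext ha')
  · exact Subtype.ext (funext hg)
  · exact Subtype.ext (funext hg')

theorem sum_trs {M : Type} [AddCommMonoid M] (Om : Finset (I → A))
    (f : (I → A) × (I → A) × Finset I → M) :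
    ∑ p ∈ trs Om, f p = ∑ s ∈ Om, ∑ t ∈ Om, ∑ B ∈ (univ : Finset (Finset I)).filter
      (fun B => mixB B s t ∈ Om ∧ mixB B t s ∈ Om), f (s, t, B) := by
  unfold trs
  rw [sum_filter, sum_product]
  refine sum_congr rfl fun s _ => ?_
  rw [sum_product]
  refine sum_congr rfl fun t _ => ?_
  rw [sum_filter]

open Classical in
theorem card_cyc (LU LV r E : ℕ) (hr : r = (univ.filter fun i : I => ty i = true).card) :
    Fintype.card (Cyc ty Om LU LV (LU - r) (LV + E)) ≤
      ∑ s ∈ Om, ∑ t ∈ Om, ∑ B ∈ (univ : Finset (Finset I)).filter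
        (fun B => mixB B s t ∈ Om ∧ mixB B t s ∈ Om),
        (if (B.filter fun i => ty i = false).card ≤ LV then
          Fintype.card (Box (rty ty : I × A → Bool)
            (LU - r - (r - (B.filter fun i => ty i = true).card))
            (LV - (B.filter fun i => ty i = false).card)) else 0) := by
  obtain ⟨Φ, hΦ⟩ := exists_injection (ty := ty) (Om := Om) LU LV r E hr
  refine (Fintype.card_le_of_injective Φ hΦ).trans (le_of_eq ?_)
  rw [Fintype.card_sigma, ← sum_trs (M := ℕ) Om
    (fun p : (I → A) × (I → A) × Finset I =>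
    (if (p.2.2.filter fun i => ty i = false).card ≤ LV then
          Fintype.card (Box (rty ty : I × A → Bool)
            (LU - r - (r - (p.2.2.filter fun i => ty i = true).card))
            (LV - (p.2.2.filter fun i => ty i = false).card)) else 0)),
    ← Finset.sum_coe_sort (trs Om)]
  refine Finset.sum_congr rfl fun p _ => ?_
  rw [Fintype.card_subtype]
  by_cases h : (p.1.2.2.filter fun i => ty i = false).card ≤ LV
  · simp [h]
  · simp [h]

/-- **(C1)** -/
theorem C1 (ty : I → Bool) (Om : Finset (I → A)) (LU LV r E : ℕ)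
    (hr : r = (univ.filter fun i : I => ty i = true).card) :
    ∑ a : Box (rty ty : I × A → Bool) LU LV, ∑ a' : Box (rty ty : I × A → Bool) LU LV,
      (∑ g : Box (rty ty : I × A → Bool) (LU - r) (LV + E),
        opM (rty ty) (codeQ Om ℝ) LU LV (LU - r) (LV + E) a g *
          opM (rty ty) (codeQ Om ℝ) LU LV (LU - r) (LV + E) a' g) ^ 2 ≤
      ∑ s ∈ Om, ∑ t ∈ Om, ∑ B ∈ (univ : Finset (Finset I)).filter
        (fun B => mixB B s t ∈ Om ∧ mixB B t s ∈ Om),
        (if (B.filter fun i => ty i = false).card ≤ LV then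
          ((Fintype.card (Box (rty ty : I × A → Bool)
            (LU - r - (r - (B.filter fun i => ty i = true).card))
            (LV - (B.filter fun i => ty i = false).card)) : ℕ) : ℝ) else 0) := by
  classical
  have h1 := Pool.XD.sum_sq_eq (Nz ty Om : Box (rty ty : I × A → Bool) LU LV →
    Box (rty ty : I × A → Bool) (LU - r) (LV + E) → Prop)
  simp only [opM_codeQ]
  rw [h1]
  have h2 := card_cyc (ty := ty) (Om := Om) LU LV r E hr
  have h3 : ((Fintype.card (Cyc ty Om LU LV (LU - r) (LV + E)) : ℕ) : ℝ) ≤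
      ((∑ s ∈ Om, ∑ t ∈ Om, ∑ B ∈ (univ : Finset (Finset I)).filter
        (fun B => mixB B s t ∈ Om ∧ mixB B t s ∈ Om),
        (if (B.filter fun i => ty i = false).card ≤ LV then
          Fintype.card (Box (rty ty : I × A → Bool)
            (LU - r - (r - (B.filter fun i => ty i = true).card))
            (LV - (B.filter fun i => ty i = false).card)) else 0) : ℕ) : ℝ) := by
    exact_mod_cast h2
  refine (le_of_eq ?_).trans (h3.trans (le_of_eq ?_))
  · congr 1
  · push_cast
    rfl

/-- **(C2)** -/
theorem C2 (ty : I → Bool) (Om : Finset (I → A)) (LU LV r E : ℕ)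
    (hr : r = (univ.filter fun i : I => ty i = true).card)
    (hE : E = (univ.filter fun i : I => ty i = false).card) (h : r ≤ LU) :
    (Om.card : ℝ) * (Fintype.card (Box (rty ty : I × A → Bool) (LU - r) LV) : ℝ) ≤
      ∑ a : Box (rty ty : I × A → Bool) LU LV,
        ∑ g : Box (rty ty : I × A → Bool) (LU - r) (LV + E),
        opM (rty ty) (codeQ Om ℝ) LU LV (LU - r) (LV + E) a g ^ 2 := by
  classical
  simp only [opM_codeQ]
  have h1 : ∑ a : Box (rty ty : I × A → Bool) LU LV,
      ∑ g : Box (rty ty : I × A → Bool) (LU - r) (LV + E),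
      (if Nz ty Om a g then (1 : ℝ) else 0) ^ 2 =
      (Fintype.card {x : Box (rty ty : I × A → Bool) LU LV ×
        Box (rty ty : I × A → Bool) (LU - r) (LV + E) // Nz ty Om x.1 x.2} : ℝ) := by
    rw [Fintype.card_subtype, card_filter, Nat.cast_sum, Fintype.sum_prod_type]
    refine sum_congr rfl fun i _ => sum_congr rfl fun j _ => ?_
    split_ifs <;> simp
  rw [h1]
  let F : {s // s ∈ Om} × Box (rty ty : I × A → Bool) (LU - r) LV →
      {x : Box (rty ty : I × A → Bool) LU LV × Box (rty ty : I × A → Bool) (LU - r) (LV + E) //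
        Nz ty Om x.1 x.2} := fun y =>
    ⟨(⟨fun l => if rty ty l then y.2.1 l + ind y.1.1 l else y.2.1 l, by
        have e1 : ∀ l, (if rty ty l then
            (if rty ty l then y.2.1 l + ind y.1.1 l else y.2.1 l) else 0) =
            (if rty ty l then y.2.1 l else 0) +
              (if rty ty l then ind y.1.1 l else 0) := fun l => by
          split_ifs <;> rfl
        have e2 : ∀ l, (if rty ty l then 0 else
            (if rty ty l then y.2.1 l + ind y.1.1 l else y.2.1 l)) =
            (if rty ty l then 0 else y.2.1 l) := fun l => by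
          split_ifs <;> rfl
        constructor
        · rw [sum_congr rfl fun l _ => e1 l, sum_add_distrib, y.2.2.1, sum_ind_true, ← hr]
          omega
        · rw [sum_congr rfl fun l _ => e2 l, y.2.2.2]⟩,
      ⟨fun l => if rty ty l then y.2.1 l else y.2.1 l + ind y.1.1 l, by
        have e1 : ∀ l, (if rty ty l then
            (if rty ty l then y.2.1 l else y.2.1 l + ind y.1.1 l) else 0) =
            (if rty ty l then y.2.1 l else 0) := fun l => by
          split_ifs <;> rfl
        have e2 : ∀ l, (if rty ty l then 0 else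
            (if rty ty l then y.2.1 l else y.2.1 l + ind y.1.1 l)) =
            (if rty ty l then 0 else y.2.1 l) +
              (if rty ty l then 0 else ind y.1.1 l) := fun l => by
          split_ifs <;> rfl
        constructor
        · rw [sum_congr rfl fun l _ => e1 l, y.2.2.1]
        · rw [sum_congr rfl fun l _ => e2 l, sum_add_distrib, y.2.2.2, sum_ind_false, ← hE]⟩),
      ⟨y.1.1, y.1.2, fun l => by
        show if rty ty l then
            (if rty ty l then y.2.1 l + ind y.1.1 l else y.2.1 l) =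
              (if rty ty l then y.2.1 l else y.2.1 l + ind y.1.1 l) + ind y.1.1 l
          else (if rty ty l then y.2.1 l else y.2.1 l + ind y.1.1 l) =
              (if rty ty l then y.2.1 l + ind y.1.1 l else y.2.1 l) + ind y.1.1 l
        split_ifs <;> rfl⟩⟩
  have hF : Function.Injective F := by
    intro y z hyz
    have e0 := congrArg (fun t => t.1) hyz
    have ea : ∀ l, (if rty ty l then y.2.1 l + ind y.1.1 l else y.2.1 l) =
        if rty ty l then z.2.1 l + ind z.1.1 l else z.2.1 l := fun l =>
      congrFun (congrArg Subtype.val (congrArg Prod.fst e0)) l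
    have eg : ∀ l, (if rty ty l then y.2.1 l else y.2.1 l + ind y.1.1 l) =
        if rty ty l then z.2.1 l else z.2.1 l + ind z.1.1 l := fun l =>
      congrFun (congrArg Subtype.val (congrArg Prod.snd e0)) l
    have e1 : ∀ l, y.2.1 l = z.2.1 l := fun l => by
      have a1 := ea l
      have a2 := eg l
      split_ifs at a1 a2 <;> omega
    have e2 : ∀ l, ind y.1.1 l = ind z.1.1 l := fun l => by
      have a1 := ea l
      have a2 := eg l
      have a3 := e1 l
      split_ifs at a1 a2 <;> omega
    exact Prod.ext (Subtype.ext (ind_injective e2)) (Subtype.ext (funext e1))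
  have h2 := Fintype.card_le_of_injective F hF
  rw [Fintype.card_prod, Fintype.card_coe] at h2
  exact_mod_cast h2

end cycles

end Pool.XP
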