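import Pool.Agent.XP.CountA
import Pool.Agent.XP.Cycle
import Pool.Agent.XD.Measure
import Pool.Agent.XD.Trace

/-!
# XP, row P2: the trace bound for a code
-/

set_option autoImplicit false
set_option linter.unusedVariables false

namespace Pool.XP

open Finset Pool.XD Pool.Agent.Helper87.D3 Pool.Agent.Helper41.CD

/-- **P2** -/
theorem code_count {I A : Type} [Fintype I] [DecidableEq I] [Fintype A] [DecidableEq A]
    (ty : I → Bool) (Om : Finset (I → A)) {LU LV r E : ℕ}
    (hr : r = (univ.filter fun i : I => ty i = true).card)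
    (hE : E = (univ.filter fun i : I => ty i = false).card) (h2 : 2 * r ≤ LU)
    {oU oV : ℝ} (h0U : 0 ≤ oU) (h0V : 0 ≤ oV) (h1U : 1 ≤ nU (rty ty : I × A → Bool))
    (h1V : 1 ≤ nV (rty ty : I × A → Bool))
    (hoU : (nU (rty ty : I × A → Bool) : ℝ) + LU - r ≤ oU * (LU - r + 1))
    (hoV : (LV : ℝ) ≤ oV * (nV (rty ty : I × A → Bool) + LV - 1)) :
    (((nU (rty ty : I × A → Bool)).multichoose LU *
      (nV (rty ty : I × A → Bool)).multichoose LV : ℕ) : ℝ) * (Om.card : ℝ) ^ 2 ≤
      ((opM (rty ty) (codeQ Om ℝ) LU LV (LU - r) (LV + E)).rank : ℝ) * ZB ty Om oU oV := by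
  classical
  have hB := sq_le_rank_mul (opM (rty ty) (codeQ Om ℝ) LU LV (LU - r) (LV + E))
  have hC1 := C1 ty Om LU LV r E hr
  have hC2 := C2 ty Om LU LV r E hr hE (by omega : r ≤ LU)
  rw [card_box] at hC2
  push_cast at hC2 ⊢
  refine code_assemble ty Om hr h2 h0V h1U h1V hoU hoV (Nat.cast_nonneg _) hB hC2
    (hC1.trans (le_of_eq ?_))
  refine Finset.sum_congr rfl fun s _ => Finset.sum_congr rfl fun t _ =>
    Finset.sum_congr ?_ fun B _ => ?_
  · congr
  · rw [card_box]
    push_cast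
    rfl

end Pool.XP
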