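import Pool.Agent.XP.PairsC

/-!
# XP: the weighted number of the exchanges of the paired permanent is polynomial
-/

set_option autoImplicit false

namespace Pool.XP

open Finset

/-- the label counts of the exchanges with given sizes -/
def nn (R Q a b : ℕ) (k : Bool × Bool) : ℕ :=
  bif k.1 then (bif k.2 then a else 2 * R - a) else (bif k.2 then b else 2 * Q - b)

variable {R Q : ℕ}

/-- the data with given label counts -/
noncomputable def GG (R Q a b : ℕ) : Finset (Fin (R + Q) → Loc) := by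
  classical
  exact univ.filter fun τ => Cmp τ ∧ (∀ k, n1 τ k = n3 τ k) ∧ ∀ k, n1 τ k = nn R Q a b k

theorem mem_GG {a b : ℕ} {τ : Fin (R + Q) → Loc} :
    τ ∈ GG R Q a b ↔ Cmp τ ∧ (∀ k, n1 τ k = n3 τ k) ∧ ∀ k, n1 τ k = nn R Q a b k := by
  classical
  simp [GG]

/-- a valid triple has data with the label counts of its set -/
theorem match_GG {τ : Fin (R + Q) → Loc} {s t : Row R Q → Col R Q} {B : Finset (Row R Q)}
    (hs : Function.Bijective s) (ht : Function.Bijective t) (hc : Cmp τ) (hm : Mt τ s t B) :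
    τ ∈ GG R Q (B.filter fun i => tyR i = true).card (B.filter fun i => tyR i = false).card := by
  have h1 := card_lab hs hm.1
  have h3 := card_lab ht hm.2
  rw [mem_GG]
  refine ⟨hc, fun k => by rw [n1, n3, h1, h3], fun k => ?_⟩
  rw [n1, h1]
  obtain ⟨T, m⟩ := k
  have hin : ∀ T, (univ.filter fun i : Row R Q => (tyR i, decide (i ∈ B)) = (T, true)) =
      B.filter fun i => tyR i = T := by
    intro T
    ext i
    simp [Prod.ext_iff, and_comm]
  have hout : ∀ T, (univ.filter fun i : Row R Q => (tyR i, decide (i ∈ B)) = (T, false)).card =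
      (univ.filter fun i : Row R Q => tyR i = T).card - (B.filter fun i => tyR i = T).card := by
    intro T
    have e1 : (univ.filter fun i : Row R Q => (tyR i, decide (i ∈ B)) = (T, false)) =
        (univ.filter fun i : Row R Q => tyR i = T) \ (B.filter fun i => tyR i = T) := by
      ext i
      simp only [Prod.mk.injEq, mem_filter, mem_univ, true_and, decide_eq_false_iff_not, mem_sdiff,
        not_and]
      constructor
      · rintro ⟨h4, h5⟩
        exact ⟨h4, fun h6 => absurd h6 h5⟩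
      · rintro ⟨h4, h5⟩
        exact ⟨h4, fun h6 => h5 h6 h4⟩
    rw [e1, card_sdiff_of_subset]
    intro i hi
    rw [mem_filter] at hi ⊢
    exact ⟨mem_univ _, hi.2⟩
  cases T <;> cases m
  · rw [hout, card_false]
    rfl
  · rw [hin]
    rfl
  · rw [hout, card_true]
    rfl
  · rw [hin]
    rfl

/-- the sum over the triples is a sum over the data -/
theorem ZB_le_sum {oU oV : ℝ} (hU : 0 ≤ oU) (hV : 0 ≤ oV) :
    ZB tyR (Om R Q) oU oV ≤ ∑ p ∈ range (2 * R + 1) ×ˢ range (2 * Q + 1),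
      oU ^ p.1 * oV ^ p.2 * (((GG R Q p.1 p.2).card : ℝ) *
        (((2 * R).factorial * (2 * Q).factorial * ∏ k, (nn R Q p.1 p.2 k).factorial : ℕ) : ℝ)) := by
  classical
  set X0 : Finset ((Row R Q → Col R Q) × (Row R Q → Col R Q) × Finset (Row R Q)) :=
    Om R Q ×ˢ (Om R Q ×ˢ univ) with hX0
  set V0 := X0.filter fun x => mixB x.2.2 x.1 x.2.1 ∈ Om R Q ∧ mixB x.2.2 x.2.1 x.1 ∈ Om R Q with hV0
  set P := range (2 * R + 1) ×ˢ range (2 * Q + 1) with hP
  set w : ℕ × ℕ → ℝ := fun p => oU ^ p.1 * oV ^ p.2 with hw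
  have hw0 : ∀ p, 0 ≤ w p := fun p => mul_nonneg (pow_nonneg hU _) (pow_nonneg hV _)
  set sz : Finset (Row R Q) → ℕ × ℕ := fun B =>
    ((B.filter fun i => tyR i = true).card, (B.filter fun i => tyR i = false).card) with hsz
  have e1 : ZB tyR (Om R Q) oU oV = ∑ x ∈ V0, w (sz x.2.2) := by
    rw [hV0, sum_filter, hX0, sum_product, ZB]
    refine sum_congr rfl fun s _ => ?_
    rw [sum_product]
    refine sum_congr rfl fun t _ => ?_
    rw [sum_filter]
  have hszP : ∀ B, sz B ∈ P := by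
    intro B
    rw [hP, mem_product, mem_range, mem_range]
    constructor
    · have h1 : (B.filter fun i => tyR i = true).card ≤
          (univ.filter fun i : Row R Q => tyR i = true).card :=
        card_le_card (filter_subset_filter _ (subset_univ _))
      rw [card_true] at h1
      exact Nat.lt_succ_of_le h1
    · have h1 : (B.filter fun i => tyR i = false).card ≤
          (univ.filter fun i : Row R Q => tyR i = false).card :=
        card_le_card (filter_subset_filter _ (subset_univ _))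
      rw [card_false] at h1
      exact Nat.lt_succ_of_le h1
  have e2 : ∀ x ∈ V0, w (sz x.2.2) ≤ ∑ p ∈ P, ∑ τ ∈ GG R Q p.1 p.2,
      if Mt τ x.1 x.2.1 x.2.2 then w p else 0 := by
    intro x hx
    rw [hV0, mem_filter, hX0, mem_product, mem_product] at hx
    obtain ⟨⟨hs, ht, _⟩, hm1, _⟩ := hx
    obtain ⟨τ, hc, hm⟩ := exists_match hs ht hm1
    have hG := match_GG (mem_Om.1 hs).1 (mem_Om.1 ht).1 hc hm
    have hin : ∀ p ∈ P, 0 ≤ ∑ τ ∈ GG R Q p.1 p.2, if Mt τ x.1 x.2.1 x.2.2 then w p else 0 :=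
      fun p _ => sum_nonneg fun τ _ => by split_ifs; exacts [hw0 p, le_rfl]
    refine le_trans ?_ (single_le_sum hin (hszP x.2.2))
    refine le_trans ?_ (single_le_sum (fun τ _ => by split_ifs; exacts [hw0 _, le_rfl]) hG)
    rw [if_pos hm]
  rw [e1]
  refine (sum_le_sum e2).trans ?_
  rw [sum_comm]
  refine sum_le_sum fun p _ => ?_
  rw [sum_comm]
  have e3 : ∀ τ ∈ GG R Q p.1 p.2, ∑ x ∈ V0, (if Mt τ x.1 x.2.1 x.2.2 then w p else 0) ≤
      w p * (((2 * R).factorial * (2 * Q).factorial * ∏ k, (nn R Q p.1 p.2 k).factorial : ℕ) : ℝ) := by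
    intro τ hτ
    rw [← sum_filter, sum_const, nsmul_eq_mul, mul_comm]
    refine mul_le_mul_of_nonneg_left ?_ (hw0 p)
    rw [Nat.cast_le]
    have h1 := card_match_le τ (V0.filter fun x => Mt τ x.1 x.2.1 x.2.2) (fun x hx => by
      rw [mem_filter, hV0, mem_filter, hX0, mem_product, mem_product] at hx
      exact ⟨(mem_Om.1 hx.1.1.1).1, (mem_Om.1 hx.1.1.2.1).1, hx.2⟩)
    refine h1.trans (le_of_eq ?_)
    congr 1
    exact prod_congr rfl fun k _ => by rw [(mem_GG.1 hτ).2.2 k]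
  refine (sum_le_sum e3).trans (le_of_eq ?_)
  rw [sum_const, nsmul_eq_mul]
  ring

/-- the real inequality between the exponentials -/
theorem exp_pair {N θ α β x y δ R' : ℝ} (hN : 0 ≤ N) (h0 : 0 ≤ θ) (h2 : 0 ≤ α)
    (h3 : α ≤ 1) (h4 : 0 ≤ β) (h5 : β ≤ 1) (hx : 0 ≤ x) (hδ : 0 ≤ δ)
    (hxy : x * θ ≤ y * (1 - θ)) (hx1 : x ≤ 1 - θ) (hR : R' = N * θ) :
    (x + δ) * (2 * (N * θ) * α) - y * (2 * (N * (1 - θ)) * β) -
      2 * N * θ * (1 - θ) * (α * (1 - β) + β * (1 - α)) ≤ 2 * R' * δ := by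
  subst hR
  have a1 : 0 ≤ N * θ := mul_nonneg hN h0
  have a2 : x * θ * (N * β) ≤ y * (1 - θ) * (N * β) :=
    mul_le_mul_of_nonneg_right hxy (mul_nonneg hN h4)
  have a3 : δ * (N * θ) * α ≤ δ * (N * θ) * 1 :=
    mul_le_mul_of_nonneg_left h3 (mul_nonneg hδ a1)
  have a4 : 0 ≤ α * (1 - β) + β * (1 - α) :=
    add_nonneg (mul_nonneg h2 (by linarith)) (mul_nonneg h4 (by linarith))
  have a5 : x * (N * θ * (α * (1 - β) + β * (1 - α))) ≤
      (1 - θ) * (N * θ * (α * (1 - β) + β * (1 - α))) :=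
    mul_le_mul_of_nonneg_right hx1 (mul_nonneg a1 a4)
  have a6 : 0 ≤ x * (N * θ) * (β * (1 - α)) :=
    mul_nonneg (mul_nonneg hx a1) (mul_nonneg h4 (by linarith))
  nlinarith

theorem term_le (hR : 1 ≤ R) (hQ : 1 ≤ Q) {x y δ : ℝ} (hx : 0 ≤ x) (hδ : 0 ≤ δ)
    (h1 : x * R ≤ y * Q) (h2 : x * (R + Q) ≤ Q) {a b : ℕ} (ha : a ≤ 2 * R) (hb : b ≤ 2 * Q) :
    Real.exp (x + δ) ^ a * Real.exp (-y) ^ b * (((GG R Q a b).card : ℝ) *
        (((2 * R).factorial * (2 * Q).factorial * ∏ k, (nn R Q a b k).factorial : ℕ) : ℝ)) ≤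
      ((Om R Q).card : ℝ) ^ 2 * (Real.exp (2 * R * δ) *
        (((R + Q : ℝ) + 1) ^ 2 * ((2 * R + 1) * (2 * Q + 1)))) := by
  have hR0 : (0 : ℝ) < R := by exact_mod_cast hR
  have hQ0 : (0 : ℝ) < Q := by exact_mod_cast hQ
  have hN0 : (0 : ℝ) < (R : ℝ) + Q := by linarith
  obtain ⟨θ, hθ⟩ : ∃ θ : ℝ, θ = R / (R + Q) := ⟨_, rfl⟩
  obtain ⟨α, hα⟩ : ∃ α : ℝ, α = a / (2 * R) := ⟨_, rfl⟩
  obtain ⟨β, hβ⟩ : ∃ β : ℝ, β = b / (2 * Q) := ⟨_, rfl⟩
  have hθ1 : (1 : ℝ) - θ = Q / (R + Q) := by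
    rw [hθ]
    field_simp
    ring
  have t0 : 0 ≤ θ := by rw [hθ]; positivity
  have t1 : θ ≤ 1 := by rw [hθ, div_le_one hN0]; linarith
  have a0 : 0 ≤ α := by rw [hα]; positivity
  have a1 : α ≤ 1 := by
    rw [hα, div_le_one (by linarith)]
    exact_mod_cast ha
  have b0 : 0 ≤ β := by rw [hβ]; positivity
  have b1 : β ≤ 1 := by
    rw [hβ, div_le_one (by linarith)]
    exact_mod_cast hb
  -- the number of the data
  have hG := card_loc_le t0 t1 a0 a1 b0 b1 (nn R Q a b) (GG R Q a b) (fun τ hτ => mem_GG.1 hτ)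
  -- the exponentials
  have hF : Real.exp (x + δ) ^ a * Real.exp (-y) ^ b *
      (1 - 2 * θ * (1 - θ) * (α * (1 - β) + β * (1 - α))) ^ (R + Q) ≤ Real.exp (2 * R * δ) := by
    have e1 : 0 ≤ 1 - 2 * θ * (1 - θ) * (α * (1 - β) + β * (1 - α)) := by
      rw [← sum_lw θ α β]
      exact sum_nonneg fun l _ => lw_nonneg t0 t1 a0 a1 b0 b1 l
    have e2 : 1 - 2 * θ * (1 - θ) * (α * (1 - β) + β * (1 - α)) ≤
        Real.exp (-(2 * θ * (1 - θ) * (α * (1 - β) + β * (1 - α)))) := by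
      have := Real.add_one_le_exp (-(2 * θ * (1 - θ) * (α * (1 - β) + β * (1 - α))))
      linarith
    have e3 := pow_le_pow_left₀ e1 e2 (R + Q)
    rw [← Real.exp_nat_mul] at e3
    have e4 : Real.exp (x + δ) ^ a * Real.exp (-y) ^ b =
        Real.exp (a * (x + δ) + b * (-y)) := by
      rw [Real.exp_add (a * (x + δ)) (b * (-y)), Real.exp_nat_mul, Real.exp_nat_mul]
    have e5 := exp_pair (N := R + Q) (θ := θ) (α := α) (β := β) (x := x) (y := y) (δ := δ)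
      (R' := R) hN0.le t0 a0 a1 b0 b1 hx hδ ?_ ?_ ?_
    · calc Real.exp (x + δ) ^ a * Real.exp (-y) ^ b *
          (1 - 2 * θ * (1 - θ) * (α * (1 - β) + β * (1 - α))) ^ (R + Q)
          ≤ Real.exp (x + δ) ^ a * Real.exp (-y) ^ b *
            Real.exp (((R + Q : ℕ) : ℝ) * -(2 * θ * (1 - θ) * (α * (1 - β) + β * (1 - α)))) :=
            mul_le_mul_of_nonneg_left e3 (by positivity)
        _ = Real.exp ((a * (x + δ) + b * (-y)) +
            (((R + Q : ℕ) : ℝ) * -(2 * θ * (1 - θ) * (α * (1 - β) + β * (1 - α))))) := by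
            rw [e4, ← Real.exp_add]
        _ ≤ Real.exp (2 * R * δ) := by
            rw [Real.exp_le_exp]
            refine le_trans (le_of_eq ?_) e5
            have c1 : (a : ℝ) = 2 * ((R + Q) * θ) * α := by
              rw [hθ, hα]
              field_simp
            have c2 : (b : ℝ) = 2 * ((R + Q) * (1 - θ)) * β := by
              rw [hθ1, hβ]
              field_simp
            have c3 : ∀ u v : ℝ, u * (2 * ((R + Q) * θ) * α) - v * (2 * ((R + Q) * (1 - θ)) * β) =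
              u * a - v * b := fun u v => by rw [← c1, ← c2]
            rw [c3]
            push_cast
            ring
    · rw [hθ1, hθ, mul_div_assoc', mul_div_assoc']
      exact div_le_div_of_nonneg_right h1 hN0.le
    · rw [hθ1, le_div_iff₀ hN0]
      exact h2
    · rw [hθ]
      field_simp
  -- the modes
  have m1 := binom_mode_real (M := R + Q) (c := R) (by omega) (Nat.le_add_right _ _)
  have m2 := binom_mode_real (M := 2 * R) (c := a) (by omega) ha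
  have m3 := binom_mode_real (M := 2 * Q) (c := b) (by omega) hb
  rw [Nat.add_sub_cancel_left] at m1
  push_cast at m1 m2 m3
  rw [← hθ] at m1
  rw [← hα] at m2
  rw [← hβ] at m3
  have hP : ∏ k, vv θ α β k ^ nn R Q a b k = (θ ^ R * (1 - θ) ^ Q) ^ 2 *
      ((α ^ a * (1 - α) ^ (2 * R - a)) * (β ^ b * (1 - β) ^ (2 * Q - b))) := by
    rw [Fintype.prod_prod_type, Fintype.prod_bool, Fintype.prod_bool, Fintype.prod_bool]
    simp only [vv, th, uu, nn, cond_true, cond_false]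
    have c1 : θ ^ (2 * R) = θ ^ a * θ ^ (2 * R - a) := by rw [← pow_add]; congr 1; omega
    have c2 : (1 - θ) ^ (2 * Q) = (1 - θ) ^ b * (1 - θ) ^ (2 * Q - b) := by
      rw [← pow_add]; congr 1; omega
    have c3 : (θ ^ R * (1 - θ) ^ Q) ^ 2 = θ ^ (2 * R) * (1 - θ) ^ (2 * Q) := by
      rw [mul_pow, ← pow_mul, ← pow_mul, Nat.mul_comm R, Nat.mul_comm Q]
    rw [c3, c1, c2, mul_pow, mul_pow, mul_pow, mul_pow]
    ring
  rw [hP] at hG
  -- the factorials
  have f1 : ((2 * R).factorial : ℝ) = (2 * R).choose a * (a.factorial * (2 * R - a).factorial) := by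
    rw [← Nat.choose_mul_factorial_mul_factorial ha]
    push_cast
    ring
  have f2 : ((2 * Q).factorial : ℝ) = (2 * Q).choose b * (b.factorial * (2 * Q - b).factorial) := by
    rw [← Nat.choose_mul_factorial_mul_factorial hb]
    push_cast
    ring
  have f3 : ((∏ k, (nn R Q a b k).factorial : ℕ) : ℝ) =
      (a.factorial * (2 * R - a).factorial) * (b.factorial * (2 * Q - b).factorial) := by
    rw [Fintype.prod_prod_type, Fintype.prod_bool, Fintype.prod_bool, Fintype.prod_bool]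
    simp only [nn, cond_true, cond_false]
    push_cast
    ring
  have hO : ((R + Q).choose R : ℝ) * ((2 * R).factorial * (2 * Q).factorial) ≤
      ((Om R Q).card : ℝ) := by
    exact_mod_cast card_Om_ge
  rw [Nat.cast_mul, Nat.cast_mul, f3]
  -- names
  obtain ⟨c, hc⟩ : ∃ c : ℝ, c = ((R + Q).choose R : ℝ) := ⟨_, rfl⟩
  obtain ⟨A1, hA1⟩ : ∃ c : ℝ, c = ((2 * R).choose a : ℝ) := ⟨_, rfl⟩
  obtain ⟨A2, hA2⟩ : ∃ c : ℝ, c = ((2 * Q).choose b : ℝ) := ⟨_, rfl⟩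
  obtain ⟨g1, hg1⟩ : ∃ c : ℝ, c = ((a.factorial : ℝ) * (2 * R - a).factorial) := ⟨_, rfl⟩
  obtain ⟨g2, hg2⟩ : ∃ c : ℝ, c = ((b.factorial : ℝ) * (2 * Q - b).factorial) := ⟨_, rfl⟩
  obtain ⟨p1, hp1⟩ : ∃ c : ℝ, c = θ ^ R * (1 - θ) ^ Q := ⟨_, rfl⟩
  obtain ⟨p2, hp2⟩ : ∃ c : ℝ, c = α ^ a * (1 - α) ^ (2 * R - a) := ⟨_, rfl⟩
  obtain ⟨p3, hp3⟩ : ∃ c : ℝ, c = β ^ b * (1 - β) ^ (2 * Q - b) := ⟨_, rfl⟩
  have pc : 0 ≤ c := by rw [hc]; positivity
  have pA1 : 0 ≤ A1 := by rw [hA1]; positivity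
  have pA2 : 0 ≤ A2 := by rw [hA2]; positivity
  have pg1 : 0 ≤ g1 := by rw [hg1]; positivity
  have pg2 : 0 ≤ g2 := by rw [hg2]; positivity
  have pp1 : 0 ≤ p1 := by
    rw [hp1]
    exact mul_nonneg (pow_nonneg t0 _) (pow_nonneg (by linarith) _)
  have pp2 : 0 ≤ p2 := by
    rw [hp2]
    exact mul_nonneg (pow_nonneg a0 _) (pow_nonneg (by linarith) _)
  have pp3 : 0 ≤ p3 := by
    rw [hp3]
    exact mul_nonneg (pow_nonneg b0 _) (pow_nonneg (by linarith) _)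
  rw [f1, f2, ← hc, ← hA1, ← hA2, ← hg1, ← hg2] at hO
  rw [f1, f2, ← hA1, ← hA2, ← hg1, ← hg2]
  rw [← hc, ← hp1] at m1
  rw [← hA1, ← hp2] at m2
  rw [← hA2, ← hp3] at m3
  rw [← hp1, ← hp2, ← hp3] at hG
  obtain ⟨E, hE⟩ : ∃ E : ℝ, E = Real.exp (x + δ) ^ a * Real.exp (-y) ^ b := ⟨_, rfl⟩
  have pE : 0 ≤ E := by rw [hE]; positivity
  rw [← hE] at hF
  rw [← hE]
  obtain ⟨Γ, hΓ⟩ : ∃ Γ : ℝ, Γ = ((GG R Q a b).card : ℝ) := ⟨_, rfl⟩
  have pΓ : 0 ≤ Γ := by rw [hΓ]; positivity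
  rw [← hΓ] at hG
  rw [← hΓ]
  have k1 : E * (Γ * (p1 ^ 2 * (p2 * p3))) ≤ Real.exp (2 * R * δ) :=
    (mul_le_mul_of_nonneg_left hG pE).trans hF
  have k2 : 1 ≤ (((R : ℝ) + Q + 1) * (c * p1)) ^ 2 * (((2 * R + 1) * (A1 * p2)) *
      ((2 * Q + 1) * (A2 * p3))) := by
    have h3 : 1 ≤ (((R : ℝ) + Q + 1) * (c * p1)) ^ 2 := one_le_pow₀ m1
    have h4 : 1 ≤ ((2 * (R : ℝ) + 1) * (A1 * p2)) * ((2 * Q + 1) * (A2 * p3)) :=
      one_le_mul_of_one_le_of_one_le m2 m3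
    exact one_le_mul_of_one_le_of_one_le h3 h4
  have k3 : 0 ≤ E * (Γ * ((A1 * g1) * (A2 * g2) * (g1 * g2))) := by positivity
  calc E * (Γ * ((A1 * g1) * (A2 * g2) * (g1 * g2)))
      ≤ E * (Γ * ((A1 * g1) * (A2 * g2) * (g1 * g2))) *
        ((((R : ℝ) + Q + 1) * (c * p1)) ^ 2 * (((2 * R + 1) * (A1 * p2)) *
        ((2 * Q + 1) * (A2 * p3)))) := le_mul_of_one_le_right k3 k2
    _ = (c * (A1 * g1 * (A2 * g2))) ^ 2 * ((E * (Γ * (p1 ^ 2 * (p2 * p3)))) *
        (((R + Q : ℝ) + 1) ^ 2 * ((2 * R + 1) * (2 * Q + 1)))) := by ring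
    _ ≤ ((Om R Q).card : ℝ) ^ 2 * (Real.exp (2 * R * δ) *
        (((R + Q : ℝ) + 1) ^ 2 * ((2 * R + 1) * (2 * Q + 1)))) := by
        refine mul_le_mul ?_ ?_ (by positivity) (by positivity)
        · exact pow_le_pow_left₀ (by positivity) hO 2
        · exact mul_le_mul_of_nonneg_right k1 (by positivity)

theorem ZB_le {R Q : ℕ} (hR : 1 ≤ R) (hQ : 1 ≤ Q) {x y δ : ℝ} (hx : 0 ≤ x) (hδ : 0 ≤ δ)
    (h1 : x * R ≤ y * Q) (h2 : x * (R + Q) ≤ Q) :
    ZB tyR (Om R Q) (Real.exp (x + δ)) (Real.exp (-y)) ≤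
      ((Om R Q).card : ℝ) ^ 2 * (Real.exp (2 * R * δ) * (2 * (R + Q) + 1 : ℝ) ^ 6) := by
  refine (ZB_le_sum (Real.exp_pos _).le (Real.exp_pos _).le).trans ?_
  have h3 : ∀ p ∈ range (2 * R + 1) ×ˢ range (2 * Q + 1),
      Real.exp (x + δ) ^ p.1 * Real.exp (-y) ^ p.2 * (((GG R Q p.1 p.2).card : ℝ) *
        (((2 * R).factorial * (2 * Q).factorial * ∏ k, (nn R Q p.1 p.2 k).factorial : ℕ) : ℝ)) ≤
      ((Om R Q).card : ℝ) ^ 2 * (Real.exp (2 * R * δ) *
        (((R + Q : ℝ) + 1) ^ 2 * ((2 * R + 1) * (2 * Q + 1)))) := by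
    intro p hp
    rw [mem_product, mem_range, mem_range] at hp
    exact term_le hR hQ hx hδ h1 h2 (Nat.lt_succ_iff.1 hp.1) (Nat.lt_succ_iff.1 hp.2)
  refine (sum_le_sum h3).trans ?_
  rw [sum_const, card_product, card_range, card_range, nsmul_eq_mul]
  push_cast
  have hR0 : (0 : ℝ) ≤ R := Nat.cast_nonneg _
  have hQ0 : (0 : ℝ) ≤ Q := Nat.cast_nonneg _
  have e1 : ((R : ℝ) + Q + 1) ^ 2 ≤ (2 * (R + Q) + 1) ^ 2 :=
    pow_le_pow_left₀ (by linarith) (by linarith) 2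
  have e2 : (2 * (R : ℝ) + 1) * (2 * Q + 1) ≤ (2 * (R + Q) + 1) ^ 2 := by
    rw [sq]
    exact mul_le_mul (by linarith) (by linarith) (by linarith) (by linarith)
  have e3 : (2 * (R : ℝ) + 1) * (2 * Q + 1) * (((R : ℝ) + Q + 1) ^ 2 *
      ((2 * R + 1) * (2 * Q + 1))) ≤ (2 * ((R : ℝ) + Q) + 1) ^ 6 := by
    calc (2 * (R : ℝ) + 1) * (2 * Q + 1) * (((R : ℝ) + Q + 1) ^ 2 * ((2 * R + 1) * (2 * Q + 1)))
        ≤ (2 * ((R : ℝ) + Q) + 1) ^ 2 * ((2 * (R + Q) + 1) ^ 2 * (2 * (R + Q) + 1) ^ 2) := by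
          refine mul_le_mul e2 (mul_le_mul e1 e2 (by positivity) (by positivity)) (by positivity)
            (by positivity)
      _ = (2 * ((R : ℝ) + Q) + 1) ^ 6 := by ring
  calc (2 * (R : ℝ) + 1) * (2 * Q + 1) * (((Om R Q).card : ℝ) ^ 2 * (Real.exp (2 * R * δ) *
        (((R : ℝ) + Q + 1) ^ 2 * ((2 * R + 1) * (2 * Q + 1)))))
      = ((Om R Q).card : ℝ) ^ 2 * (Real.exp (2 * R * δ) * ((2 * (R : ℝ) + 1) * (2 * Q + 1) *
        (((R : ℝ) + Q + 1) ^ 2 * ((2 * R + 1) * (2 * Q + 1))))) := by ring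
    _ ≤ ((Om R Q).card : ℝ) ^ 2 * (Real.exp (2 * R * δ) * (2 * (R + Q) + 1) ^ 6) :=
        mul_le_mul_of_nonneg_left (mul_le_mul_of_nonneg_left e3 (Real.exp_pos _).le) (by positivity)

end Pool.XP
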