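import Pool.Agent.XP.Defs
import Pool.Agent.XD.Par

/-!
# XP: the parameters (row P4)
-/

set_option autoImplicit false

namespace Pool.XP

open Finset Pool.XD

theorem card_rty (R Q : ℕ) (t : Bool) :
    (univ.filter fun l : Row R Q × Col R Q => rty tyR l = t).card =
      (univ.filter fun i : Row R Q => tyR i = t).card * (2 * (R + Q)) := by
  have h : (univ.filter fun l : Row R Q × Col R Q => rty tyR l = t) =
      (univ.filter fun i : Row R Q => tyR i = t) ×ˢ (univ : Finset (Col R Q)) := by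
    ext ⟨i, c⟩
    simp only [mem_filter, mem_univ, true_and, mem_product, and_true]
    rfl
  rw [h, card_product, card_univ, Fintype.card_prod, Fintype.card_fin, Fintype.card_bool,
    Nat.mul_comm (R + Q) 2]

theorem card_tyR_true (R Q : ℕ) : (univ.filter fun i : Row R Q => tyR i = true).card = 2 * R := by
  rw [card_filter, Fintype.sum_sum_type]
  simp [tyR]

theorem card_tyR_false (R Q : ℕ) :
    (univ.filter fun i : Row R Q => tyR i = false).card = 2 * Q := by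
  rw [card_filter, Fintype.sum_sum_type]
  simp [tyR]

theorem nU_eq (R Q : ℕ) : nU (rty tyR : Row R Q × Col R Q → Bool) = 2 * R * (2 * (R + Q)) := by
  unfold nU
  rw [card_rty, card_tyR_true]

theorem nV_eq (R Q : ℕ) : nV (rty tyR : Row R Q × Col R Q → Bool) = 2 * Q * (2 * (R + Q)) := by
  unfold nV
  rw [card_rty, card_tyR_false]

theorem exp_half_bounds : 1.64 < Real.exp (1 / 2) ∧ Real.exp (1 / 2) < 1.65 := by
  have h1 : Real.exp (1 / 2) * Real.exp (1 / 2) = Real.exp 1 := by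
    rw [← Real.exp_add]
    norm_num
  have h2 := Real.exp_one_gt_d9
  have h3 := Real.exp_one_lt_d9
  have h4 := Real.exp_pos (1 / 2)
  constructor
  · by_contra h5
    rw [not_lt] at h5
    nlinarith
  · by_contra h5
    rw [not_lt] at h5
    nlinarith

/-- **ROW P4**: the degrees -/
theorem params {R Q NU NV : ℕ} {y : ℝ} (hR : 1 ≤ R) (hQ : 1 ≤ Q) (hNU : NU = 2 * R * (2 * (R + Q)))
    (hNV : NV = 2 * Q * (2 * (R + Q))) (hy : 0 < y) : ∃ LU LV : ℕ, 2 * (2 * R) ≤ LU ∧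
      Real.exp (1 / 2) * LU ≤ NU + LU - 1 ∧ (NV : ℝ) + LV ≤ Real.exp y * (LV + 1) ∧
      (NU : ℝ) + LU - (2 * R : ℕ) ≤ Real.exp (1 / 2 + 1 / (R + Q)) * (LU - (2 * R : ℕ) + 1) ∧
      (LV : ℝ) ≤ Real.exp (-y) * (NV + LV - 1) := by
  have hNV1 : 1 ≤ NV := by
    rw [hNV]
    exact Nat.mul_pos (by omega) (by omega)
  obtain ⟨LV, hLV1, hLV2⟩ := exists_LV hy hNV1
  obtain ⟨he1, he2⟩ := exp_half_bounds
  obtain ⟨e, he⟩ : ∃ e : ℝ, e = Real.exp (1 / 2) := ⟨_, rfl⟩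
  rw [← he] at he1 he2
  have he0 : 0 < e - 1 := by linarith
  have hRr : (1 : ℝ) ≤ R := by exact_mod_cast hR
  have hQr : (1 : ℝ) ≤ Q := by exact_mod_cast hQ
  have hNr : (NU : ℝ) = 4 * R * (R + Q) := by
    rw [hNU]
    push_cast
    ring
  obtain ⟨δ, hδ⟩ : ∃ δ : ℝ, δ = 1 / ((R : ℝ) + Q) := ⟨_, rfl⟩
  have hδm : δ * (R + Q) = 1 := by
    rw [hδ]
    field_simp
  have hδ0 : 0 < δ := by rw [hδ]; positivity
  have hδ2 : δ ≤ 1 / 2 := by
    rw [hδ]
    apply one_div_le_one_div_of_le (by norm_num)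
    linarith
  obtain ⟨z, hz⟩ : ∃ z : ℝ, z = ((NU : ℝ) - 1) / (e - 1) := ⟨_, rfl⟩
  have hN8 : 8 * (R : ℝ) ≤ NU := by
    rw [hNr]
    nlinarith
  have hz0 : 0 ≤ z := by
    rw [hz]
    apply div_nonneg _ he0.le
    linarith
  have hzN : z * (e - 1) = NU - 1 := by
    rw [hz]
    field_simp
  obtain ⟨LU, hLU⟩ : ∃ LU : ℕ, LU = ⌊z⌋₊ := ⟨_, rfl⟩
  have h1 : (LU : ℝ) ≤ z := by rw [hLU]; exact Nat.floor_le hz0
  have h2 : z < LU + 1 := by rw [hLU]; exact Nat.lt_floor_add_one z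
  have h3 : (LU : ℝ) * (e - 1) ≤ NU - 1 := by
    rw [← hzN]
    exact mul_le_mul_of_nonneg_right h1 he0.le
  have h4 : (NU : ℝ) - 1 ≤ (LU + 1) * (e - 1) := by
    rw [← hzN]
    exact mul_le_mul_of_nonneg_right h2.le he0.le
  have h2r : 2 * (2 * R) ≤ LU := by
    rw [hLU]
    apply Nat.le_floor
    rw [hz, le_div_iff₀ he0]
    push_cast
    have : 2 * (2 * (R : ℝ)) * (e - 1) ≤ 2 * (2 * R) * 0.65 :=
      mul_le_mul_of_nonneg_left (by linarith) (by linarith)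
    linarith
  refine ⟨LU, LV, h2r, ?_, hLV1, ?_, hLV2⟩
  · rw [← he]
    linarith
  have h2rr : 2 * (2 * (R : ℝ)) ≤ LU := by exact_mod_cast h2r
  rw [← hδ, Real.exp_add, ← he]
  push_cast
  have h5 : 1 + δ ≤ Real.exp δ := by
    have := Real.add_one_le_exp δ
    linarith
  have hLr : (0 : ℝ) ≤ LU - 2 * R + 1 := by linarith
  have h6 : e * (1 + δ) * (LU - 2 * R + 1) ≤ e * Real.exp δ * (LU - 2 * R + 1) :=
    mul_le_mul_of_nonneg_right (mul_le_mul_of_nonneg_left h5 (by linarith)) hLr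
  refine le_trans ?_ h6
  -- `δ (LU + 1) (e - 1) ≥ 3.5 R`
  have h7 : 3.5 * (R : ℝ) ≤ δ * ((LU + 1) * (e - 1)) := by
    have h8 : δ * ((NU : ℝ) - 1) ≤ δ * ((LU + 1) * (e - 1)) :=
      mul_le_mul_of_nonneg_left h4 hδ0.le
    have h9 : δ * ((NU : ℝ) - 1) = 4 * R * (δ * (R + Q)) - δ := by
      rw [hNr]
      ring
    rw [hδm] at h9
    linarith
  have h10 : e * (3.5 * (R : ℝ)) ≤ e * (δ * ((LU + 1) * (e - 1))) :=
    mul_le_mul_of_nonneg_left h7 (by linarith)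
  have h11 : 2 * R * (e * (1 + δ) - 1) * (e - 1) ≤ e * (3.5 * (R : ℝ)) := by
    have h12 : e * (1 + δ) - 1 ≤ 1.5 := by
      have : e * (1 + δ) ≤ e * 1.5 := mul_le_mul_of_nonneg_left (by linarith) (by linarith)
      linarith
    have h13 : 2 * R * (e * (1 + δ) - 1) ≤ 2 * (R : ℝ) * 1.5 :=
      mul_le_mul_of_nonneg_left h12 (by linarith)
    have h14 : 2 * R * (e * (1 + δ) - 1) * (e - 1) ≤ 2 * (R : ℝ) * 1.5 * (e - 1) :=
      mul_le_mul_of_nonneg_right h13 he0.le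
    nlinarith
  have h16 : 2 * R * (e * (1 + δ) - 1) * (e - 1) ≤ e * δ * (LU + 1) * (e - 1) := by linarith
  have h17 : 2 * R * (e * (1 + δ) - 1) ≤ e * δ * (LU + 1) := le_of_mul_le_mul_right h16 he0
  linarith

end Pool.XP
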