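import Pool.Agent.XP.Perm
import Pool.Agent.XP.Count
import Pool.Agent.XP.Pairs
import Pool.Agent.XP.Par
import Pool.Agent.XP.Num
import Pool.Agent.XD.Assembly

/-!
# XP: the assembly
-/

set_option autoImplicit false

namespace Pool.XP

open Finset Pool.XD Pool.Agent.Helper87.D3 Pool.Agent.Helper41.CD

section code

variable {I A : Type} [Fintype I]

theorem map_codeQ (Om : Finset (I → A)) {R R' : Type} [CommRing R] [CommRing R'] (f : R →+* R') :
    MvPolynomial.map f (codeQ Om R) = codeQ Om R' := by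
  unfold codeQ
  rw [map_sum]
  refine sum_congr rfl fun s _ => ?_
  rw [map_prod]
  exact prod_congr rfl fun i _ => MvPolynomial.map_X _ _

/-- **the top part of the shifted polynomial of a code** -/
theorem cf_PhiX_codeQ {K : Type} [Field K] (ty : I → Bool) (Om : Finset (I → A)) {r E : ℕ}
    (hr : r = (univ.filter fun i : I => ty i = true).card)
    (hE : E = (univ.filter fun i : I => ty i = false).card) (c : I × A → K) :
    cf r E (PhiX (rty ty) c (codeQ Om K)) = codeQ Om K := by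
  rw [hr, hE]
  have h1 : (univ.filter fun i : I => ty i = false) =
      univ.filter fun i : I => ¬ ty i = true := by
    ext i
    simp
  rw [h1]
  unfold codeQ
  rw [map_sum, cf_sum]
  refine sum_congr rfl fun s _ => ?_
  rw [map_prod]
  have h2 := cf_prod_aff_top (univ : Finset I) (fun i : I => ty i = true)
    (fun i => (MvPolynomial.C (c (i, s i)) : MvPolynomial (I × A) K))
    (fun i => MvPolynomial.X (i, s i))
  rw [← h2]
  congr 1
  refine prod_congr rfl fun i _ => ?_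
  unfold PhiX
  rw [MvPolynomial.aeval_X]
  congr 1
  show (if ty i then _ else _) * _ = _
  split_ifs <;> rfl

/-- a factor does not increase the rank -/
theorem rank_smul_le {I J : Type} [Fintype I] [Fintype J] (a : ℝ) (M : Matrix I J ℝ) :
    (a • M).rank ≤ M.rank := by
  classical
  have h1 : a • M = (a • (1 : Matrix I I ℝ)) * M := by
    rw [Matrix.smul_mul, Matrix.one_mul]
  rw [h1]
  exact Matrix.rank_mul_le_right _ _

theorem opM_C_mul {L : Type} [Fintype L] (ty : L → Bool) (a : ℝ) (F : MvPolynomial L ℝ)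
    (b e b' e' : ℕ) :
    opM ty (MvPolynomial.C a * F) b e b' e' = a • opM ty F b e b' e' := by
  ext α γ
  rw [Matrix.smul_apply]
  unfold opM
  split_ifs
  · rw [MvPolynomial.coeff_C_mul, smul_eq_mul]
  · rw [smul_zero]

end code

/-- perm_n and the paired permanent, over a field with a valuation -/
theorem perm_pair' {R Q n : ℕ} (hn : 4 * (R + Q) ≤ n) {K Γ : Type} [Field K]
    [LinearOrderedCommGroupWithZero Γ] (v : Valuation K Γ) :
    ∃ φ : Fin n × Fin n → MvPolynomial (Row R Q × Col R Q) K, (∀ p, (φ p).totalDegree ≤ 1) ∧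
      (∀ p m, v (MvPolynomial.coeff m (φ p)) ≤ 1) ∧
      MvPolynomial.aeval φ (Pool.CDep.permP n K) =
        MvPolynomial.map (Int.castRingHom K) (MvPolynomial.C ((-2) ^ R * 2 ^ Q) *
          codeQ (Om R Q) ℤ) := by
  obtain ⟨φ, h1, h2⟩ := perm_pair R Q n hn
  refine ⟨fun p => MvPolynomial.map (Int.castRingHom K) (φ p), fun p => ?_, fun p m => ?_, ?_⟩
  · refine le_trans ?_ (h1 p)
    exact Finset.sup_mono (MvPolynomial.support_map_subset _ _)
  · rw [MvPolynomial.coeff_map]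
    exact val_int_le v _
  · rw [← h2, ← Pool.CDep.map_permP (n := n) (Int.castRingHom K)]
    have h3 : ∀ P : MvPolynomial (Fin n × Fin n) ℤ,
        MvPolynomial.aeval (fun p => MvPolynomial.map (Int.castRingHom K) (φ p))
          (MvPolynomial.map (Int.castRingHom K) P) =
        MvPolynomial.map (Int.castRingHom K) (MvPolynomial.aeval φ P) := by
      intro P
      induction P using MvPolynomial.induction_on with
      | C a => simp
      | add p q hp hq => rw [map_add, map_add, hp, hq, map_add, map_add]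
      | mul_X p i hp =>
        rw [map_mul, map_mul, hp, MvPolynomial.map_X, MvPolynomial.aeval_X, map_mul,
          MvPolynomial.aeval_X, map_mul]
    exact h3 _

theorem card_rows_true (R Q : ℕ) :
    (univ.filter fun i : Row R Q => tyR i = true).card = 2 * R := by
  classical
  have h1 : (univ.filter fun i : Row R Q => tyR i = true) =
      (univ : Finset (Fin (2 * R))).map Function.Embedding.inl := by
    ext i
    rw [mem_filter, mem_map]
    constructor
    · rintro ⟨_, h⟩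
      rcases i with i | i
      · exact ⟨i, mem_univ _, rfl⟩
      · exact absurd h (by simp [tyR])
    · rintro ⟨j, _, rfl⟩
      exact ⟨mem_univ _, rfl⟩
  rw [h1, card_map, card_univ, Fintype.card_fin]

theorem card_rows_false (R Q : ℕ) :
    (univ.filter fun i : Row R Q => tyR i = false).card = 2 * Q := by
  classical
  have h1 : (univ.filter fun i : Row R Q => tyR i = false) =
      (univ : Finset (Fin (2 * Q))).map Function.Embedding.inr := by
    ext i
    rw [mem_filter, mem_map]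
    constructor
    · rintro ⟨_, h⟩
      rcases i with i | i
      · exact absurd h (by simp [tyR])
      · exact ⟨i, mem_univ _, rfl⟩
    · rintro ⟨j, _, rfl⟩
      exact ⟨mem_univ _, rfl⟩
  rw [h1, card_map, card_univ, Fintype.card_fin]

/-- the end of the proof of the core inequality -/
theorem fin_arith {D0 M Rk R0 Z κ H B1 B2 : ℝ} {r : ℕ} (hD0 : 0 < D0) (hM : 0 < M) (hH : 0 ≤ H)
    (hB1 : 0 ≤ B1) (hB2 : 0 ≤ B2) (hR : R0 ≤ Rk) (hc : D0 * M ≤ R0 * Z) (hR0 : 0 ≤ R0)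
    (hZ : Z ≤ M * (B1 * B2)) (hr : Rk * H ^ r ≤ κ * D0) : H ^ r ≤ κ * (B1 * B2) := by
  have h1 : D0 * M ≤ (Rk * (B1 * B2)) * M := by
    calc D0 * M ≤ R0 * Z := hc
      _ ≤ R0 * (M * (B1 * B2)) := mul_le_mul_of_nonneg_left hZ hR0
      _ ≤ Rk * (M * (B1 * B2)) := mul_le_mul_of_nonneg_right hR (by positivity)
      _ = (Rk * (B1 * B2)) * M := by ring
  have h2 : D0 ≤ Rk * (B1 * B2) := le_of_mul_le_mul_right h1 hM
  have h3 : D0 * H ^ r ≤ D0 * (κ * (B1 * B2)) := by
    calc D0 * H ^ r ≤ (Rk * (B1 * B2)) * H ^ r := mul_le_mul_of_nonneg_right h2 (by positivity)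
      _ = (Rk * H ^ r) * (B1 * B2) := by ring
      _ ≤ (κ * D0) * (B1 * B2) := mul_le_mul_of_nonneg_right hr (by positivity)
      _ = D0 * (κ * (B1 * B2)) := by ring
  exact le_of_mul_le_mul_left h3 hD0

/-- **the core inequality** -/
theorem core {K Γ : Type} [Field K] [LinearOrderedCommGroupWithZero Γ] (v : Valuation K Γ)
    (hv : ∀ n : ℕ, n ≠ 0 → v n = 1) {n T S w w0 k R Q : ℕ} {y : ℝ} {X Y : ℕ → ℝ}
    (f : Fin T → Fin S → MvPolynomial (Fin n × Fin n) K) (hS : 1 ≤ S) (hw : 1 ≤ w)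
    (hw0 : 1 ≤ w0) (hf : ∀ i j, f i j ∈ Cls w0 w S k)
    (hcl : ∀ m, v (MvPolynomial.coeff m ((∑ i, ∏ j, f i j) - Pool.CDep.permP n K)) < 1)
    (hR : 1 ≤ R) (hQ : 1 ≤ Q) (hy : 0 < y) (hy1 : y ≤ 1 / 2) (hn : 4 * (R + Q) ≤ n)
    (hRQ : (R : ℝ) ≤ 2 * y * Q)
    (hX : ∀ i, 0 < X i) (hY : ∀ i, 0 < Y i) (hX0 : X 0 = 1) (hY0 : Y 0 = 1)
    (hnum : ∀ i ≤ 2 * k, NumD (2 * (R + Q)) (S * ((2 * (R + Q) : ℕ) + 1) ^ (8 * (w0 + w) + 16))
        (Real.exp (1 / 2)) (Real.exp y) (X i) (Y i) (X (i + 1)) (Y (i + 1))) :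
      Real.exp (1 / 2) ^ (2 * R) ≤ T * (((2 * (R + Q) : ℕ) + 1 : ℝ) ^ 16 *
        (X (2 * k + 1) ^ (2 * R) * Y (2 * k + 1) ^ (2 * Q))) *
          (Real.exp 2 * (2 * (R + Q) + 1 : ℝ) ^ 6) := by
  classical
  have := charZero_of_val v hv
  obtain ⟨d, hd⟩ : ∃ d, d = 2 * (R + Q) := ⟨_, rfl⟩
  obtain ⟨ty, hty⟩ : ∃ ty : Row R Q × Col R Q → Bool, ty = rty tyR := ⟨_, rfl⟩
  obtain ⟨r, hr⟩ : ∃ r, r = 2 * R := ⟨_, rfl⟩
  obtain ⟨E, hE⟩ : ∃ E, E = 2 * Q := ⟨_, rfl⟩
  have hnU := nU_eq R Q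
  have hnV := nV_eq R Q
  rw [← hty] at hnU hnV
  have h1U : 1 ≤ nU ty := by
    rw [hnU]
    exact Nat.mul_pos (by omega) (by omega)
  have h1V : 1 ≤ nV ty := by
    rw [hnV]
    exact Nat.mul_pos (by omega) (by omega)
  obtain ⟨LU, LV, hL1, hL2, hL3, hL4, hL5⟩ := params hR hQ hnU hnV hy
  rw [← hr] at hL1
  obtain ⟨φ, hφ1, hφ2, hφ3⟩ := perm_pair' hn v
  -- the polynomials in the letters
  set f' : Fin T → Fin S → MvPolynomial (Row R Q × Col R Q) K :=
    fun i j => MvPolynomial.aeval φ (f i j) with hf'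
  have hf'c : ∀ i j, f' i j ∈ Cls w0 w S k := fun i j => cls_aeval φ hφ1 (hf i j)
  obtain ⟨cz, hcz⟩ : ∃ cz : ℤ, cz = (-2) ^ R * 2 ^ Q := ⟨_, rfl⟩
  have hcz0 : cz ≠ 0 := by
    rw [hcz]
    exact mul_ne_zero (pow_ne_zero _ (by norm_num)) (pow_ne_zero _ (by norm_num))
  rw [← hcz] at hφ3
  obtain ⟨F0, hF0⟩ : ∃ F0 : MvPolynomial (Row R Q × Col R Q) ℤ,
      F0 = MvPolynomial.C cz * codeQ (Om R Q) ℤ := ⟨_, rfl⟩
  rw [← hF0] at hφ3
  have hcl' : ∀ m', v (MvPolynomial.coeff m' ((∑ i, ∏ j, f' i j) -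
      MvPolynomial.map (Int.castRingHom K) F0)) < 1 := by
    intro m'
    have h1 := val_coeff_aeval v φ hφ2 _ hcl m'
    rwa [map_sub, hφ3, map_sum, sum_congr rfl fun i _ => map_prod _ _ _] at h1
  -- the machine
  obtain ⟨SU, SV, hSU, hSV⟩ := exists_sub ty (K := K)
  have hfV := filt_VV ty (K := K)
  have hfU := filt_UU ty (K := K)
  have he1 : (0 : ℝ) < Real.exp (1 / 2) := Real.exp_pos _
  have hey : (0 : ℝ) < Real.exp y := Real.exp_pos _
  obtain ⟨W, hW, hmach⟩ := level_machine (σ := Row R Q × Col R Q) (K := K)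
    (B := MvPolynomial (Row R Q × Col R Q) K)
    (Pool.CD.cost_Nu hfV hfU hey.le he1.le) (Pool.CD.big_Bi hfV hfU) he1 hey
    (Pool.CD.leaf_Bi hfV hfU (Real.exp y) (Real.exp (1 / 2))) SU SV
    (fun a ha b hb => by
      have h1 := Pool.CD.Nu.ofMul (V := VV ty K) (U := UU ty K)
        (hv := Real.exp y) (hu := Real.exp (1 / 2)) ((hSU a).1 ha) ((hSV b).1 hb)
      rwa [pow_zero, pow_zero, mul_one] at h1)
    (PhiX ty) (PhiX_mem _) (PhiX_zero _)
    (fun c p hp => by
      obtain ⟨α, hα, β, hβ, h1⟩ := PhiX_one ty c p hp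
      exact ⟨α, (hSU α).2 hα, β, (hSV β).2 hβ, h1⟩)
    (d := d) hw0 hw hS hX hY hX0 hY0 (by rw [hd]; exact hnum) f' hf'c
  obtain ⟨c, hc⟩ := exists_nat_eval W hW
  have hNu := hmach (fun l => (c l : K)) hc r E (by omega)
  -- the matrix
  set P := cf r E (PhiX ty (fun l => (c l : K)) (∑ i, ∏ j, f' i j)) with hP
  have hPm : P ∈ UU ty K r ∧ P ∈ VV ty K E :=
    PhiX_mem ty (fun l => (c l : K)) (∑ i, ∏ j, f' i j) r E
  have hrank1 := rank_opM_le ty he1 hey (LU := LU) (LV := LV) (r := r) (E := E)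
    (by omega) h1U h1V hL2 hL3 P hPm.1 hPm.2 hNu
  have htop : cf r E (PhiX ty (fun l => (c l : K)) (MvPolynomial.map (Int.castRingHom K) F0)) =
      MvPolynomial.map (Int.castRingHom K) F0 := by
    have h2 := cf_PhiX_codeQ tyR (Om R Q) (hr.trans (card_rows_true R Q).symm)
      (hE.trans (card_rows_false R Q).symm) (fun l => (c l : K))
    rw [← hty] at h2
    rw [hF0, map_mul, MvPolynomial.map_C, map_codeQ, map_mul, PhiX_C, cf_cst_mul, h2,
      MvPolynomial.algebraMap_eq]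
  have hclose : ∀ m', v (MvPolynomial.coeff m' (P - MvPolynomial.map (Int.castRingHom K) F0)) < 1 := by
    intro m'
    have h1 := val_cf_PhiX ty v (fun l => (c l : K)) (fun l => val_nat_le v _) _ hcl'
      r E m'
    rw [map_sub, cf_sub] at h1
    rwa [htop] at h1
  have hrank2 := rank_le_of_close v hv
    (opM ty F0 LU LV (LU - r) (LV + E))
    (opM ty P LU LV (LU - r) (LV + E)) (fun α γ => by
      unfold opM
      split_ifs
      · have h1 := hclose (gap ty α.1 γ.1)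
        rw [MvPolynomial.coeff_sub, MvPolynomial.coeff_map] at h1
        exact h1
      · rw [Int.cast_zero, sub_zero, map_zero]
        exact zero_lt_one)
  have hmap : (opM ty F0 LU LV (LU - r) (LV + E)).map (Int.cast : ℤ → ℝ) =
      (cz : ℝ) • opM ty (codeQ (Om R Q) ℝ) LU LV (LU - r) (LV + E) := by
    have h1 := opM_map ty (Int.castRingHom ℝ) F0 LU LV (LU - r) (LV + E)
    rw [hF0, map_mul, MvPolynomial.map_C, map_codeQ, opM_C_mul] at h1
    rw [hF0]
    exact h1
  have hrank3 : (opM ty (codeQ (Om R Q) ℝ) LU LV (LU - r) (LV + E)).rank ≤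
      (opM ty P LU LV (LU - r) (LV + E)).rank := by
    refine le_trans ?_ hrank2
    rw [hmap]
    have hczr : (cz : ℝ) ≠ 0 := Int.cast_ne_zero.2 hcz0
    have h1 := rank_smul_le (cz : ℝ)⁻¹ ((cz : ℝ) •
      opM ty (codeQ (Om R Q) ℝ) LU LV (LU - r) (LV + E))
    rwa [inv_smul_smul₀ hczr] at h1
  -- the count
  have hcount := code_count (A := Col R Q) tyR (Om R Q) (LU := LU) (LV := LV) (r := r) (E := E)
    (by rw [card_rows_true, hr]) (by rw [card_rows_false, hE]) (by rw [hr]; omega)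
    (oU := Real.exp (1 / 2 + 1 / (R + Q))) (oV := Real.exp (-y))
    (Real.exp_pos _).le (Real.exp_pos _).le (by rw [← hty]; exact h1U)
    (by rw [← hty]; exact h1V) (by rw [← hty, hr]; exact hL4)
    (by rw [← hty]; exact hL5)
  rw [← hty] at hcount
  have hRr : (1 : ℝ) ≤ R := by exact_mod_cast hR
  have hQr : (1 : ℝ) ≤ Q := by exact_mod_cast hQ
  have hZ := ZB_le (R := R) (Q := Q) (x := 1 / 2) (y := y) (δ := 1 / (R + Q)) hR hQ
    (by norm_num) (by positivity) (by nlinarith) (by nlinarith)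
  have hδ : Real.exp (2 * R * (1 / (R + Q))) ≤ Real.exp 2 := by
    apply Real.exp_le_exp.2
    rw [mul_one_div, div_le_iff₀ (by positivity)]
    nlinarith
  -- conclusion
  have hD0pos : (0 : ℝ) < (((nU ty).multichoose LU * (nV ty).multichoose LV : ℕ) : ℝ) := by
    have h1 : 0 < (nU ty).multichoose LU := by
      rw [Nat.multichoose_eq]
      exact Nat.choose_pos (by omega)
    have h2 : 0 < (nV ty).multichoose LV := by
      rw [Nat.multichoose_eq]
      exact Nat.choose_pos (by omega)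
    exact Nat.cast_pos.2 (Nat.mul_pos h1 h2)
  have hM0 : (0 : ℝ) < ((Om R Q).card : ℝ) ^ 2 := by
    have h1 : 0 < (Om R Q).card := (Om_nonempty R Q).card_pos
    exact pow_pos (Nat.cast_pos.2 h1) 2
  have h1 := fin_arith hD0pos hM0 (Real.exp_pos (1 / 2)).le (Real.exp_pos 2).le
    (show (0 : ℝ) ≤ (2 * (R + Q) + 1 : ℝ) ^ 6 by positivity)
    (Nat.cast_le.2 hrank3) hcount (Nat.cast_nonneg _) (hZ.trans (mul_le_mul_of_nonneg_left
      (mul_le_mul_of_nonneg_right hδ (by positivity)) hM0.le)) hrank1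
  rw [hr, hE, hd] at h1
  exact h1

/-- **EXPONENTIAL LOWER BOUNDS FOR CONSTANT DEPTH**, exponent `1/2` at depth three, one constant
for all depths -/
theorem xp : ∃ C : ℝ, 1 ≤ C ∧ ∀ (k : ℕ)
      (K Γ : Type) [Field K] [LinearOrderedCommGroupWithZero Γ] (v : Valuation K Γ)
      (n T S w w0 : ℕ) (f : Fin T → Fin S → MvPolynomial (Fin n × Fin n) K),
      (∀ a : ℕ, a ≠ 0 → v a = 1) → 2 ≤ S → 1 ≤ w → 1 ≤ w0 →
      (∀ i j, f i j ∈ Cls w0 w S k) →
      (∀ m, v (MvPolynomial.coeff m ((∑ i, ∏ j, f i j) - Pool.CDep.permP n K)) < 1) →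
      (n : ℝ) ≤ C * Real.log (2 * n * T) *
        (C * (Real.log S + (w + w0) * Real.log (2 * n))) ^ (Nat.fib (2 * k + 4) - 2) := by
  have hB : (1 : ℝ) ≤ Real.exp 2 := Real.one_le_exp (by norm_num)
  obtain ⟨C, hC, hfin⟩ := xp_final (Real.exp 2) hB
  refine ⟨C, hC, ?_⟩
  intro k K Γ _ _ v n T S w w0 f hv hS hw hw0 hf hcl
  obtain ⟨y, X, Y, hy, hy1, hX0, hY0, hX, hY, hnum, h⟩ :=
    hfin k n T S w w0 (Pool.CDep.T_pos v f hcl) hS hw hw0
  refine h fun R Q hR hQ hn hRQ => ?_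
  refine (core v hv f (by omega) hw hw0 hf hcl hR hQ hy hy1 hn hRQ hX hY hX0 hY0
    (fun i hi => by
      have h2 := hnum (2 * (R + Q)) (by omega) i hi
      exact h2)).trans (le_of_eq ?_)
  ring

end Pool.XP
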