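import Pool.Agent.XP.Defs
import Pool.Agent.Helper97.Form.Moebius
import Pool.Agent.CDep.Val

/-!
# XP, row P1: the paired permanent is a projection of the permanent
-/

set_option autoImplicit false
set_option linter.unusedSectionVars false

namespace Pool.XP

open Finset Pool.Agent.Helper97.Form

section word

variable {R Q : ℕ} {B : Type} [CommRing B]

/-- the port used by a row of type `t` in the column `c` -/
def prt (u w : Col R Q → B) (t : Bool) (c : Col R Q) : B := if t then u c else w c

theorem prt_sq {u w : Col R Q → B} (hu : ∀ c, u c * u c = 0) (hw : ∀ c, w c * w c = 0) (t : Bool)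
    (c : Col R Q) : prt u w t c * prt u w t c = 0 := by
  unfold prt
  split_ifs
  · exact hu c
  · exact hw c

/-- the factor of a pair of columns -/
def fac (u w : Col R Q → B) (g : Fin (R + Q)) : B :=
  2 * (u (g, false) * u (g, true) - w (g, false) * w (g, true))

theorem u_w_fac {u w : Col R Q → B} (hu : ∀ c, u c * u c = 0) (hw : ∀ c, w c * w c = 0)
    (g : Fin (R + Q)) (b b' : Bool) : u (g, b) * w (g, b') * fac u w g = 0 := by
  unfold fac
  have h1 : u (g, b) * (u (g, false) * u (g, true)) = 0 := by
    cases b
    · linear_combination u (g, true) * hu (g, false)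
    · linear_combination u (g, false) * hu (g, true)
  have h2 : w (g, b') * (w (g, false) * w (g, true)) = 0 := by
    cases b'
    · linear_combination w (g, true) * hw (g, false)
    · linear_combination w (g, false) * hw (g, true)
  linear_combination (2 * w (g, b')) * h1 - (2 * u (g, b)) * h2

theorem prt_ne_fac {u w : Col R Q → B} (hu : ∀ c, u c * u c = 0) (hw : ∀ c, w c * w c = 0)
    (g : Fin (R + Q)) (b b' : Bool) {t t' : Bool} (ht : t ≠ t') :
    prt u w t (g, b) * prt u w t' (g, b') * fac u w g = 0 := by
  cases t <;> cases t'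
  · exact absurd rfl ht
  · show w (g, b) * u (g, b') * fac u w g = 0
    rw [mul_comm (w (g, b))]
    exact u_w_fac hu hw g b' b
  · exact u_w_fac hu hw g b b'
  · exact absurd rfl ht

/-- the words outside of the code do not contribute -/
theorem word_zero {u w : Col R Q → B} (hu : ∀ c, u c * u c = 0) (hw : ∀ c, w c * w c = 0)
    (s : Row R Q → Col R Q) (hs : s ∉ Om R Q) :
    (∏ i, prt u w (tyR i) (s i)) * ∏ g, fac u w g = 0 := by
  classical
  by_cases h1 : ∃ i j, i ≠ j ∧ (s i).1 = (s j).1 ∧ tyR i ≠ tyR j
  · obtain ⟨i, j, hij, h2, h3⟩ := h1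
    have hj : j ∈ univ.erase i := mem_erase.2 ⟨hij.symm, mem_univ _⟩
    rw [← mul_prod_erase univ _ (mem_univ i), ← mul_prod_erase _ _ hj,
      ← mul_prod_erase univ (fac u w) (mem_univ (s i).1)]
    have e1 : s i = ((s i).1, (s i).2) := rfl
    have e2 : s j = ((s i).1, (s j).2) := by rw [h2]
    have h4 := prt_ne_fac hu hw (s i).1 (s i).2 (s j).2 h3
    rw [← e1, ← e2] at h4
    linear_combination ((∏ x ∈ (univ.erase i).erase j, prt u w (tyR x) (s x)) *
      ∏ x ∈ univ.erase (s i).1, fac u w x) * h4
  · push Not at h1
    have h2 : ¬ Function.Injective s := by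
      intro hinj
      apply hs
      have hcard : Fintype.card (Row R Q) = Fintype.card (Col R Q) := by
        simp only [Row, Col, Fintype.card_sum, Fintype.card_prod, Fintype.card_fin,
          Fintype.card_bool]
        ring
      refine mem_filter.2 ⟨mem_univ _, (Fintype.bijective_iff_injective_and_card s).2
        ⟨hinj, hcard⟩, fun i j hij => ?_⟩
      by_cases h3 : i = j
      · rw [h3]
      · exact h1 i j h3 hij
    unfold Function.Injective at h2
    push Not at h2
    obtain ⟨i, j, h3, h4⟩ := h2
    have hj : j ∈ univ.erase i := mem_erase.2 ⟨fun h => h4 h.symm, mem_univ _⟩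
    have h5 := h1 i j h4 (by rw [h3])
    rw [← mul_prod_erase univ _ (mem_univ i), ← mul_prod_erase _ _ hj, ← h3, ← h5]
    linear_combination ((∏ x ∈ (univ.erase i).erase j, prt u w (tyR x) (s x)) *
      ∏ x, fac u w x) * prt_sq hu hw (tyR i) (s i)

/-- the words of the code -/
theorem word_one {u w : Col R Q → B} (hu : ∀ c, u c * u c = 0) (hw : ∀ c, w c * w c = 0)
    (s : Row R Q → Col R Q) (hs : s ∈ Om R Q) :
    (∏ i, prt u w (tyR i) (s i)) * ∏ g, fac u w g =
      ((-2) ^ R * 2 ^ Q) * ((∏ c, u c) * ∏ c, w c) := by
  classical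
  obtain ⟨-, hb, ht⟩ := mem_filter.1 hs
  let e : Row R Q ≃ Col R Q := Equiv.ofBijective s hb
  have he : ∀ i, e i = s i := fun i => rfl
  -- the type of a pair
  let τ : Fin (R + Q) → Bool := fun g => tyR (e.symm (g, false))
  have hτ : ∀ g b, tyR (e.symm (g, b)) = τ g := by
    intro g b
    apply ht
    rw [← he, ← he, Equiv.apply_symm_apply, Equiv.apply_symm_apply]
  have h1 : ∏ i, prt u w (tyR i) (s i) = ∏ g, prt u w (τ g) (g, false) * prt u w (τ g) (g, true) := by
    have h2 : ∏ i, prt u w (tyR i) (s i) = ∏ c : Col R Q, prt u w (τ c.1) c := by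
      refine Fintype.prod_equiv e _ _ fun i => ?_
      rw [he, ← hτ (s i).1 (s i).2]
      show prt u w (tyR i) (s i) = prt u w (tyR (e.symm (s i))) (s i)
      rw [← he, Equiv.symm_apply_apply]
    rw [h2, Fintype.prod_prod_type]
    refine prod_congr rfl fun g _ => ?_
    rw [Fintype.prod_bool, mul_comm]
  have h3 : ∀ g, prt u w (τ g) (g, false) * prt u w (τ g) (g, true) * fac u w g =
      (if τ g = true then (-2 : B) else 2) *
        ((u (g, false) * u (g, true)) * (w (g, false) * w (g, true))) := by
    intro g
    unfold prt fac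
    cases τ g
    · simp only [Bool.false_eq_true, if_false]
      linear_combination (-2 * w (g, true) * w (g, true)) * hw (g, false)
    · simp only [if_true]
      linear_combination (2 * u (g, true) * u (g, true)) * hu (g, false)
  have h4 : (univ.filter fun g => τ g = true).card = R := by
    have e1 : (univ.filter fun i : Row R Q => tyR i = true).card =
        (univ.filter fun c : Col R Q => τ c.1 = true).card := by
      refine card_equiv e fun i => ?_
      simp only [mem_filter, mem_univ, true_and]
      rw [← hτ (e i).1 (e i).2]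
      show _ ↔ tyR (e.symm (e i)) = true
      rw [Equiv.symm_apply_apply]
    have e2 : (univ.filter fun i : Row R Q => tyR i = true).card = 2 * R := by
      rw [card_filter, Fintype.sum_sum_type]
      simp [tyR]
    have e3 : (univ.filter fun c : Col R Q => τ c.1 = true).card =
        2 * (univ.filter fun g => τ g = true).card := by
      have : (univ.filter fun c : Col R Q => τ c.1 = true) =
          (univ.filter fun g => τ g = true) ×ˢ (univ : Finset Bool) := by
        ext c
        simp
      rw [this, card_product, card_univ, Fintype.card_bool, mul_comm]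
    omega
  have h5 : (univ.filter fun g => ¬ τ g = true).card = Q := by
    have := card_filter_add_card_filter_not (s := (univ : Finset (Fin (R + Q))))
      (fun g => τ g = true)
    rw [card_univ, Fintype.card_fin] at this
    omega
  rw [h1, ← prod_mul_distrib, prod_congr rfl fun g _ => h3 g, prod_mul_distrib, prod_mul_distrib,
    prod_ite, prod_const, prod_const, h4, h5, Fintype.prod_prod_type, Fintype.prod_prod_type]
  congr 2
  · exact prod_congr rfl fun g _ => by rw [Fintype.prod_bool, mul_comm]
  · exact prod_congr rfl fun g _ => by rw [Fintype.prod_bool, mul_comm]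

end word

section mat

variable {R Q : ℕ}

theorem card_row_col : Fintype.card (Row R Q) = Fintype.card (Col R Q) := by
  simp only [Row, Col, Fintype.card_sum, Fintype.card_prod, Fintype.card_fin, Fintype.card_bool]
  ring

/-- the matrix; the letters are given by `x` -/
def pm {A : Type} [CommRing A] (e : Col R Q ≃ Row R Q) (x : Row R Q × Col R Q → A) :
    Matrix (Col R Q ⊕ Col R Q) (Col R Q ⊕ Col R Q) A :=
  Matrix.of fun i j => match i, j with
    | Sum.inl r, Sum.inl c => if tyR (e r) then x (e r, c) else 0
    | Sum.inl r, Sum.inr c => if tyR (e r) then 0 else x (e r, c)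
    | Sum.inr r, Sum.inl c => if r.1 = c.1 then 1 else 0
    | Sum.inr r, Sum.inr c => if r.1 = c.1 then (if r.2 then -1 else 1) else 0

theorem pm_permanent {A : Type} [CommRing A] (e : Col R Q ≃ Row R Q) (x : Row R Q × Col R Q → A) :
    (pm e x).permanent = ((-2) ^ R * 2 ^ Q) * ∑ s ∈ Om R Q, ∏ i, x (i, s i) := by
  classical
  apply perm_of_forms
  intro B _ f t ht
  let u : Col R Q → B := fun c => t (Sum.inl c)
  let w : Col R Q → B := fun c => t (Sum.inr c)
  have hu : ∀ c, u c * u c = 0 := fun c => ht _
  have hw : ∀ c, w c * w c = 0 := fun c => ht _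
  rw [Fintype.prod_sum_type, Fintype.prod_sum_type]
  have r1 : ∏ r : Col R Q, ∑ j, f (pm e x (Sum.inl r) j) * t j =
      ∏ i : Row R Q, ∑ c, f (x (i, c)) * prt u w (tyR i) c := by
    refine Fintype.prod_equiv e _ _ fun r => ?_
    rw [Fintype.sum_sum_type, ← sum_add_distrib]
    refine sum_congr rfl fun c _ => ?_
    show f (if tyR (e r) then x (e r, c) else 0) * u c +
      f (if tyR (e r) then 0 else x (e r, c)) * w c = _
    unfold prt
    split_ifs <;> simp
  have r2 : ∏ r : Col R Q, ∑ j, f (pm e x (Sum.inr r) j) * t j = ∏ g, fac u w g := by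
    rw [Fintype.prod_prod_type]
    refine prod_congr rfl fun g _ => ?_
    have r3 : ∀ b : Bool, ∑ j, f (pm e x (Sum.inr (g, b)) j) * t j =
        (u (g, false) + u (g, true)) + (if b then -1 else 1) * (w (g, false) + w (g, true)) := by
      intro b
      rw [Fintype.sum_sum_type, Fintype.sum_prod_type, Fintype.sum_prod_type]
      congr 1
      · have : ∀ g' : Fin (R + Q), ∑ b' : Bool, f (pm e x (Sum.inr (g, b)) (Sum.inl (g', b'))) *
            t (Sum.inl (g', b')) = if g = g' then u (g', false) + u (g', true) else 0 := by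
          intro g'
          show ∑ b' : Bool, f (if g = g' then 1 else 0) * u (g', b') = _
          rw [Fintype.sum_bool]
          split_ifs
          · rw [map_one]
            ring
          · rw [map_zero]
            ring
        rw [sum_congr rfl fun g' _ => this g', sum_ite_eq, if_pos (mem_univ _)]
      · have : ∀ g' : Fin (R + Q), ∑ b' : Bool, f (pm e x (Sum.inr (g, b)) (Sum.inr (g', b'))) *
            t (Sum.inr (g', b')) =
              if g = g' then (if b then -1 else 1) * (w (g', false) + w (g', true)) else 0 := by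
          intro g'
          show ∑ b' : Bool, f (if g = g' then (if b then -1 else 1) else 0) * w (g', b') = _
          rw [Fintype.sum_bool]
          cases b
          · split_ifs <;> simp [add_comm]
          · split_ifs <;> simp [add_comm]
        rw [sum_congr rfl fun g' _ => this g', sum_ite_eq, if_pos (mem_univ _)]
    rw [Fintype.prod_bool, r3, r3]
    unfold fac
    simp only [if_true, Bool.false_eq_true, if_false]
    linear_combination hu (g, false) + hu (g, true) - hw (g, false) - hw (g, true)
  rw [r1, r2, prod_univ_sum]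
  simp only [prod_mul_distrib]
  rw [sum_mul, Fintype.piFinset_univ, ← sum_subset (subset_univ (Om R Q))]
  · rw [sum_congr rfl fun s hs => by rw [mul_assoc, word_one hu hw s hs]]
    rw [map_mul, map_sum, ← sum_mul]
    simp only [map_prod, map_mul, map_pow, map_neg, map_ofNat]
    change _ = _ * ((∏ c, u c) * ∏ c, w c)
    ring
  · intro s _ hs
    rw [mul_assoc, word_zero hu hw s hs, mul_zero]

/-- **row P1** -/
theorem perm_pair (R Q n : ℕ) (hn : 4 * (R + Q) ≤ n) :
    ∃ φ : Fin n × Fin n → MvPolynomial (Row R Q × Col R Q) ℤ, (∀ p, (φ p).totalDegree ≤ 1) ∧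
      MvPolynomial.aeval φ (Pool.CDep.permP n ℤ) =
        MvPolynomial.C ((-2) ^ R * 2 ^ Q) * codeQ (Om R Q) ℤ := by
  classical
  obtain ⟨e⟩ : Nonempty (Col R Q ≃ Row R Q) := ⟨Fintype.equivOfCardEq card_row_col.symm⟩
  have hn' : Fintype.card ((Col R Q ⊕ Col R Q) ⊕ Fin (n - 4 * (R + Q))) = n := by
    simp only [Col, Fintype.card_sum, Fintype.card_prod, Fintype.card_fin, Fintype.card_bool]
    omega
  let E : Fin n ≃ (Col R Q ⊕ Col R Q) ⊕ Fin (n - 4 * (R + Q)) :=
    (finCongr hn'.symm).trans (Fintype.equivFin _).symm
  let M := padM (Fin (n - 4 * (R + Q)))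
    (pm e (fun l => (MvPolynomial.X l : MvPolynomial (Row R Q × Col R Q) ℤ)))
  have hX : ∀ l : Row R Q × Col R Q, (MvPolynomial.X l : MvPolynomial _ ℤ).totalDegree ≤ 1 :=
    fun l => (MvPolynomial.totalDegree_X l).le
  have h0 : (0 : MvPolynomial (Row R Q × Col R Q) ℤ).totalDegree ≤ 1 := by
    rw [MvPolynomial.totalDegree_zero]
    omega
  have h1 : (1 : MvPolynomial (Row R Q × Col R Q) ℤ).totalDegree ≤ 1 := by
    rw [MvPolynomial.totalDegree_one]
    omega
  have hM : ∀ i j, (M i j).totalDegree ≤ 1 := by
    rintro ((r | r) | i) ((c | c) | j)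
    · show (if tyR (e r) then (MvPolynomial.X (e r, c) : MvPolynomial _ ℤ) else 0).totalDegree ≤ 1
      split_ifs
      · exact hX _
      · exact h0
    · show (if tyR (e r) then 0 else (MvPolynomial.X (e r, c) : MvPolynomial _ ℤ)).totalDegree ≤ 1
      split_ifs
      · exact h0
      · exact hX _
    · exact h0
    · show (if r.1 = c.1 then 1 else 0 : MvPolynomial (Row R Q × Col R Q) ℤ).totalDegree ≤ 1
      split_ifs
      · exact h1
      · exact h0
    · show (if r.1 = c.1 then (if r.2 then -1 else 1) else 0 :
        MvPolynomial (Row R Q × Col R Q) ℤ).totalDegree ≤ 1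
      split_ifs
      · rw [MvPolynomial.totalDegree_neg]
        exact h1
      · exact h1
      · exact h0
    · exact h0
    · exact h0
    · exact h0
    · show (if i = j then 1 else 0 : MvPolynomial (Row R Q × Col R Q) ℤ).totalDegree ≤ 1
      split_ifs
      · exact h1
      · exact h0
  refine ⟨fun p => M (E p.1) (E p.2), fun p => hM _ _, ?_⟩
  have h3 : (pm e (fun l => (MvPolynomial.X l : MvPolynomial (Row R Q × Col R Q) ℤ))).permanent =
      MvPolynomial.C ((-2) ^ R * 2 ^ Q) * codeQ (Om R Q) ℤ := by
    rw [pm_permanent]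
    unfold codeQ
    congr 1
    simp only [map_mul, map_pow, map_neg, map_ofNat]
  rw [← h3, ← padM_permanent (κ := Fin (n - 4 * (R + Q))), ← permanent_reindex E E]
  have h2 : MvPolynomial.aeval (fun p : Fin n × Fin n => M (E p.1) (E p.2))
      (Pool.CDep.permP n ℤ) =
      ((MvPolynomial.aeval (fun p : Fin n × Fin n => M (E p.1) (E p.2)) :
        MvPolynomial (Fin n × Fin n) ℤ →ₐ[ℤ] MvPolynomial (Row R Q × Col R Q) ℤ) : _ →+* _)
        (Pool.CDep.permP n ℤ) := rfl
  rw [h2]
  unfold Pool.CDep.permP
  rw [Pool.CDep.map_permanent']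
  congr 1
  refine Matrix.ext fun i j => ?_
  show MvPolynomial.aeval (fun p : Fin n × Fin n => M (E p.1) (E p.2))
    (MvPolynomial.X (i, j)) = _
  rw [MvPolynomial.aeval_X]
  rfl

end mat

end Pool.XP
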