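import Pool.Agent.XP.Defs
import Pool.Agent.XD.Mc

/-!
# XP, row P2: from the counts to the rank bound, final inequality
-/

set_option autoImplicit false

namespace Pool.XP

open Finset Pool.XD

/-- the final inequality, abstractly -/
theorem code_assemble {I A : Type} [Fintype I] [DecidableEq I] [Fintype A] [DecidableEq A]
    (ty : I → Bool) (Om : Finset (I → A)) {LU LV r NU NV : ℕ}
    (hr : r = (univ.filter fun i : I => ty i = true).card) (h2 : 2 * r ≤ LU)
    {oU oV : ℝ} (h0V : 0 ≤ oV) (h1U : 1 ≤ NU) (h1V : 1 ≤ NV)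
    (hoU : (NU : ℝ) + LU - r ≤ oU * (LU - r + 1)) (hoV : (LV : ℝ) ≤ oV * (NV + LV - 1))
    {rk P R : ℝ} (hrk : 0 ≤ rk) (hB : P ^ 2 ≤ rk * R)
    (hC2 : (Om.card : ℝ) * ((NU.multichoose (LU - r) : ℝ) * NV.multichoose LV) ≤ P)
    (hC1 : R ≤ ∑ s ∈ Om, ∑ t ∈ Om,
      ∑ B ∈ (univ : Finset (Finset I)).filter (fun B => mixB B s t ∈ Om ∧ mixB B t s ∈ Om),
        (if (B.filter fun i => ty i = false).card ≤ LV then
          ((NU.multichoose (LU - r - (r - (B.filter fun i => ty i = true).card)) : ℝ) *
            NV.multichoose (LV - (B.filter fun i => ty i = false).card)) else 0)) :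
    ((NU.multichoose LU : ℝ) * NV.multichoose LV) * (Om.card : ℝ) ^ 2 ≤ rk * ZB ty Om oU oV := by
  set W : ℝ := (Om.card : ℝ) with hW
  set D1 : ℝ := (NU.multichoose (LU - r) : ℝ) * NV.multichoose LV with hD1
  set D0 : ℝ := (NU.multichoose LU : ℝ) * NV.multichoose LV with hD0
  have hWnn : 0 ≤ W := Nat.cast_nonneg _
  have hD1pos : 0 < D1 := by
    have e1 := mc_pos h1U (LU - r)
    have e2 := mc_pos h1V LV
    rw [hD1]
    exact_mod_cast Nat.mul_pos e1 e2
  have hD0nn : 0 ≤ D0 := by positivity
  have hrL : (r : ℝ) ≤ LU := by exact_mod_cast (by omega : r ≤ LU)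
  have hoU1 : 1 ≤ oU := by
    have hNU : (1 : ℝ) ≤ NU := by exact_mod_cast h1U
    by_contra hcon
    push Not at hcon
    nlinarith
  -- every term
  have hterm : ∀ B : Finset I,
      D0 * (if (B.filter fun i => ty i = false).card ≤ LV then
          ((NU.multichoose (LU - r - (r - (B.filter fun i => ty i = true).card)) : ℝ) *
            NV.multichoose (LV - (B.filter fun i => ty i = false).card)) else 0) ≤
      D1 ^ 2 * (oU ^ (B.filter fun i => ty i = true).card *
        oV ^ (B.filter fun i => ty i = false).card) := by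
    intro B
    have hle : (B.filter fun i => ty i = true).card ≤ r := by
      rw [hr]
      exact card_le_card (filter_subset_filter _ (subset_univ B))
    have hU : (NU.multichoose (LU - r - (r - (B.filter fun i => ty i = true).card)) : ℝ) *
        NU.multichoose LU ≤
        (NU.multichoose (LU - r) : ℝ) ^ 2 * oU ^ (B.filter fun i => ty i = true).card :=
      mc_two hoU1 h2 hle hoU
    split_ifs with hk
    · have hV := mc_sub_le h1V h0V hoV _ hk
      calc D0 * ((NU.multichoose (LU - r - (r - (B.filter fun i => ty i = true).card)) : ℝ) *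
            NV.multichoose (LV - (B.filter fun i => ty i = false).card))
          = ((NU.multichoose (LU - r - (r - (B.filter fun i => ty i = true).card)) : ℝ) *
              NU.multichoose LU) *
              ((NV.multichoose LV : ℝ) *
                NV.multichoose (LV - (B.filter fun i => ty i = false).card)) := by rw [hD0]; ring
        _ ≤ ((NU.multichoose (LU - r) : ℝ) ^ 2 * oU ^ (B.filter fun i => ty i = true).card) *
              ((NV.multichoose LV : ℝ) *
                (NV.multichoose LV * oV ^ (B.filter fun i => ty i = false).card)) :=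
            mul_le_mul hU (mul_le_mul_of_nonneg_left hV (by positivity)) (by positivity)
              (by positivity)
        _ = D1 ^ 2 * (oU ^ (B.filter fun i => ty i = true).card *
              oV ^ (B.filter fun i => ty i = false).card) := by rw [hD1]; ring
    · rw [mul_zero]
      positivity
  have hsum : D0 * R ≤ D1 ^ 2 * ZB ty Om oU oV := by
    refine le_trans (mul_le_mul_of_nonneg_left hC1 hD0nn) ?_
    unfold ZB
    rw [Finset.mul_sum, Finset.mul_sum]
    refine Finset.sum_le_sum fun s _ => ?_
    rw [Finset.mul_sum, Finset.mul_sum]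
    refine Finset.sum_le_sum fun t _ => ?_
    rw [Finset.mul_sum, Finset.mul_sum]
    exact Finset.sum_le_sum fun B _ => hterm B
  have hP : (W * D1) ^ 2 ≤ P ^ 2 := pow_le_pow_left₀ (by positivity) hC2 2
  have hfin : D1 ^ 2 * (D0 * W ^ 2) ≤ D1 ^ 2 * (rk * ZB ty Om oU oV) := by
    calc D1 ^ 2 * (D0 * W ^ 2) = D0 * (W * D1) ^ 2 := by ring
      _ ≤ D0 * (rk * R) := mul_le_mul_of_nonneg_left (hP.trans hB) hD0nn
      _ = rk * (D0 * R) := by ring
      _ ≤ rk * (D1 ^ 2 * ZB ty Om oU oV) := mul_le_mul_of_nonneg_left hsum hrk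
      _ = _ := by ring
  exact le_of_mul_le_mul_left hfin (by positivity)

end Pool.XP
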