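import Pool.Agent.XD.Defs

/-!
# XP: exponential lower bounds with the exponent `1/2` at depth three: definitions

Blocks `I` with types `ty : I → Bool`, alphabet `A`, letters `I × A`, words `s : I → A`.
The paired permanent: the words are the bijections from the rows to the columns `Fin N × Bool` for
which the two columns of every pair are used by rows of the same type.
-/

set_option autoImplicit false

namespace Pool.XP

open Finset Pool.XD

section code

variable {I A : Type} [Fintype I] [DecidableEq I] [Fintype A] [DecidableEq A]

/-- the type of a letter is the type of its block -/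
def rty (ty : I → Bool) (l : I × A) : Bool := ty l.1

/-- the polynomial of a code -/
noncomputable def codeQ (Om : Finset (I → A)) (K : Type) [CommRing K] : MvPolynomial (I × A) K :=
  ∑ s ∈ Om, ∏ i, MvPolynomial.X (i, s i)

/-- `s` on `B` and `t` outside -/
def mixB (B : Finset I) (s t : I → A) : I → A := fun i => if i ∈ B then s i else t i

/-- the weighted number of the exchanges -/
noncomputable def ZB (ty : I → Bool) (Om : Finset (I → A)) (oU oV : ℝ) : ℝ :=
  ∑ s ∈ Om, ∑ t ∈ Om,
    ∑ B ∈ (univ : Finset (Finset I)).filter (fun B => mixB B s t ∈ Om ∧ mixB B t s ∈ Om),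
      oU ^ (B.filter fun i => ty i = true).card * oV ^ (B.filter fun i => ty i = false).card

end code

section paired

/-- the rows: `2 R` rows of type `true`, `2 Q` rows of type `false` -/
abbrev Row (R Q : ℕ) : Type := Fin (2 * R) ⊕ Fin (2 * Q)

/-- the columns, in pairs -/
abbrev Col (R Q : ℕ) : Type := Fin (R + Q) × Bool

/-- the type of a row -/
def tyR {R Q : ℕ} (i : Row R Q) : Bool := i.isLeft

/-- the words: the two columns of every pair are used by rows of the same type -/
def Om (R Q : ℕ) : Finset (Row R Q → Col R Q) :=
  univ.filter fun s => Function.Bijective s ∧ ∀ i j, (s i).1 = (s j).1 → tyR i = tyR j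

end paired

end Pool.XP
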