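import Pool.Agent.XP.Defs

/-!
# XP: counting bijections with labels, the mode of the binomial distribution
-/

set_option autoImplicit false

namespace Pool.XP

open Finset

section bij

variable {I A κ : Type} [Fintype I] [DecidableEq I] [Fintype A] [DecidableEq A]
  [Fintype κ] [DecidableEq κ]

/-- the number of the bijections which respect labels -/
theorem card_bij_eq (p : I → κ) (q : A → κ) (s0 : I ≃ A) (h0 : ∀ i, q (s0 i) = p i) :
    (univ.filter fun s : I → A => Function.Bijective s ∧ ∀ i, q (s i) = p i).card =
      ∏ k, (univ.filter fun i => p i = k).card.factorial := by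
  classical
  have h1 := DomMulAct.stabilizer_card (α := I) p
  have h2 : Fintype.card {g : Equiv.Perm I // p ∘ g = p} =
      (univ.filter fun s : I → A => Function.Bijective s ∧ ∀ i, q (s i) = p i).card := by
    rw [← Fintype.card_coe]
    refine Fintype.card_congr
      { toFun := fun g => ⟨fun i => s0 (g.1 i), ?_⟩
        invFun := fun s => ⟨(Equiv.ofBijective s.1 (mem_filter.1 s.2).2.1).trans s0.symm, ?_⟩
        left_inv := ?_
        right_inv := ?_ }
    · rw [mem_filter]
      refine ⟨mem_univ _, s0.bijective.comp g.1.bijective, fun i => ?_⟩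
      rw [h0]
      exact congrFun g.2 i
    · funext i
      have h3 := (mem_filter.1 s.2).2.2 i
      simp only [Function.comp_apply, Equiv.trans_apply, Equiv.ofBijective_apply]
      rw [← h0, Equiv.apply_symm_apply, h3]
    · intro g
      apply Subtype.ext
      ext i
      simp
    · intro s
      apply Subtype.ext
      funext i
      simp
  rw [← h2, h1]
  refine prod_congr rfl fun k _ => ?_
  rw [Fintype.card_subtype]

/-- the number of the bijections which respect labels, upper bound -/
theorem card_bij_le (p : I → κ) (q : A → κ) :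
    (univ.filter fun s : I → A => Function.Bijective s ∧ ∀ i, q (s i) = p i).card ≤
      ∏ k, (univ.filter fun i => p i = k).card.factorial := by
  classical
  rcases (univ.filter fun s : I → A => Function.Bijective s ∧ ∀ i, q (s i) = p i).eq_empty_or_nonempty
    with h | ⟨s, hs⟩
  · rw [h]
    simp
  · have h1 := (mem_filter.1 hs).2
    exact (card_bij_eq p q (Equiv.ofBijective s h1.1) h1.2).le

/-- a bijection which respects labels exists if the classes have the same size -/
theorem exists_bij (p : I → κ) (q : A → κ)
    (h : ∀ k, (univ.filter fun i => p i = k).card = (univ.filter fun a => q a = k).card) :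
    ∃ s0 : I ≃ A, ∀ i, q (s0 i) = p i := by
  classical
  have h1 : ∀ k, Nonempty ({i // p i = k} ≃ {a // q a = k}) := fun k => by
    rw [← Fintype.card_eq, Fintype.card_subtype, Fintype.card_subtype]
    exact h k
  refine ⟨(Equiv.sigmaFiberEquiv p).symm.trans ((Equiv.sigmaCongrRight fun k => (h1 k).some).trans
    (Equiv.sigmaFiberEquiv q)), fun i => ?_⟩
  simp only [Equiv.trans_apply]
  exact ((h1 (p i)).some ⟨i, rfl⟩).2

end bij

/-- the largest term of a binomial sum -/
theorem binom_mode {M c : ℕ} (hc : c ≤ M) :
    M ^ M ≤ (M + 1) * (M.choose c * c ^ c * (M - c) ^ (M - c)) := by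
  set D : ℕ := M - c with hD
  have hM : M = c + D := by omega
  set f : ℕ → ℕ := fun j => M.choose j * c ^ j * D ^ (M - j) with hf
  have hstep : ∀ j, j < M → f (j + 1) * ((j + 1) * D) = f j * ((M - j) * c) := by
    intro j hj
    have h1 : M.choose (j + 1) * (j + 1) = M.choose j * (M - j) := Nat.choose_succ_right_eq M j
    have h2 : M - j = (M - (j + 1)) + 1 := by omega
    simp only [hf]
    have h3 : D ^ (M - j) = D ^ (M - (j + 1)) * D := by rw [h2, pow_succ]
    calc M.choose (j + 1) * c ^ (j + 1) * D ^ (M - (j + 1)) * ((j + 1) * D)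
        = (M.choose (j + 1) * (j + 1)) * c ^ (j + 1) * (D ^ (M - (j + 1)) * D) := by ring
      _ = (M.choose j * (M - j)) * c ^ (j + 1) * D ^ (M - j) := by rw [h1, ← h3]
      _ = M.choose j * c ^ j * D ^ (M - j) * ((M - j) * c) := by ring
  have hmax : ∀ j, j ≤ M → f j ≤ f c := by
    rcases Nat.eq_zero_or_pos D with h0 | h0
    · intro j hj
      have h1 : c = M := by omega
      rcases Nat.lt_or_ge j M with h2 | h2
      · have h3 : f j = 0 := by
          simp only [hf, h0]
          rw [zero_pow (by omega), mul_zero]
        rw [h3]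
        exact Nat.zero_le _
      · have h3 : j = c := by omega
        rw [h3]
    · -- below c
      have hup : ∀ j, j < c → f j ≤ f (j + 1) := by
        intro j hj
        have h1 := hstep j (by omega)
        have h2 : (j + 1) * D ≤ (M - j) * c := by
          have h3 : j + 1 ≤ c := hj
          have h4 : D ≤ M - j := by omega
          calc (j + 1) * D ≤ c * (M - j) := Nat.mul_le_mul h3 h4
            _ = (M - j) * c := Nat.mul_comm _ _
        have h5 : 0 < (j + 1) * D := Nat.mul_pos (Nat.succ_pos j) h0
        have h6 : f j * ((j + 1) * D) ≤ f (j + 1) * ((j + 1) * D) := by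
          rw [h1]
          exact Nat.mul_le_mul_left _ h2
        exact Nat.le_of_mul_le_mul_right h6 h5
      have hdown : ∀ j, c ≤ j → j < M → f (j + 1) ≤ f j := by
        intro j hj hjM
        have h1 := hstep j hjM
        have h2 : (M - j) * c ≤ (j + 1) * D := by
          have h3 : c ≤ j + 1 := by omega
          have h4 : M - j ≤ D := by omega
          calc (M - j) * c ≤ D * (j + 1) := Nat.mul_le_mul h4 h3
            _ = (j + 1) * D := Nat.mul_comm _ _
        have h5 : 0 < (j + 1) * D := Nat.mul_pos (Nat.succ_pos j) h0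
        have h6 : f (j + 1) * ((j + 1) * D) ≤ f j * ((j + 1) * D) := by
          rw [h1]
          exact Nat.mul_le_mul_left _ h2
        exact Nat.le_of_mul_le_mul_right h6 h5
      intro j hj
      rcases Nat.le_total j c with h1 | h1
      · obtain ⟨e, he⟩ := Nat.exists_eq_add_of_le h1
        have h2 : ∀ e j, j + e ≤ c → f j ≤ f (j + e) := by
          intro e
          induction e with
          | zero => intro j _; exact le_rfl
          | succ e ih =>
            intro j hj
            exact (ih j (by omega)).trans (hup (j + e) (by omega))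
        have h3 := h2 e j (by omega)
        rwa [← he] at h3
      · obtain ⟨e, he⟩ := Nat.exists_eq_add_of_le h1
        have h2 : ∀ e, c + e ≤ M → f (c + e) ≤ f c := by
          intro e
          induction e with
          | zero => intro _; exact le_rfl
          | succ e ih =>
            intro hj
            exact (hdown (c + e) (by omega) (by omega)).trans (ih (by omega))
        have h3 := h2 e (by omega)
        rwa [← he] at h3
  have hsum : M ^ M = ∑ j ∈ range (M + 1), f j := by
    have h1 : M ^ M = (c + D) ^ M := by rw [← hM]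
    rw [h1, add_pow]
    refine sum_congr rfl fun j _ => ?_
    simp only [hf, Nat.cast_id]
    ring
  rw [hsum]
  calc ∑ j ∈ range (M + 1), f j ≤ ∑ _j ∈ range (M + 1), f c :=
        sum_le_sum fun j hj => hmax j (Nat.lt_succ_iff.1 (mem_range.1 hj))
    _ = (M + 1) * (M.choose c * c ^ c * D ^ D) := by
        rw [sum_const, card_range, smul_eq_mul]

/-- the largest term of the binomial distribution -/
theorem binom_mode_real {M c : ℕ} (hM : 1 ≤ M) (hc : c ≤ M) :
    1 ≤ ((M : ℝ) + 1) * ((M.choose c : ℝ) * ((c / M : ℝ) ^ c * (1 - c / M : ℝ) ^ (M - c))) := by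
  have h1 := binom_mode hc
  have h2 : ((M : ℝ)) ^ M ≤ ((M : ℝ) + 1) * ((M.choose c : ℝ) * (c : ℝ) ^ c *
      ((M : ℝ) - c) ^ (M - c)) := by
    have h3 : ((M ^ M : ℕ) : ℝ) ≤ (((M + 1) * (M.choose c * c ^ c * (M - c) ^ (M - c)) : ℕ) : ℝ) :=
      Nat.cast_le.2 h1
    push_cast [Nat.cast_sub hc] at h3
    exact h3
  have hM0 : (0 : ℝ) < M := by exact_mod_cast hM
  have h4 : (1 - c / M : ℝ) = ((M : ℝ) - c) / M := by field_simp
  rw [h4, div_pow, div_pow]
  have h5 : (M : ℝ) ^ c * (M : ℝ) ^ (M - c) = (M : ℝ) ^ M := by
    rw [← pow_add]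
    congr 1
    omega
  have h6 : ((M : ℝ) + 1) * ((M.choose c : ℝ) * ((c : ℝ) ^ c / (M : ℝ) ^ c *
      (((M : ℝ) - c) ^ (M - c) / (M : ℝ) ^ (M - c)))) =
      (((M : ℝ) + 1) * ((M.choose c : ℝ) * (c : ℝ) ^ c * ((M : ℝ) - c) ^ (M - c))) / (M : ℝ) ^ M := by
    rw [← h5]
    field_simp
  rw [h6, le_div_iff₀ (pow_pos hM0 _), one_mul]
  exact h2

end Pool.XP
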