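import Pool.Agent.XP.PairsA

/-!
# XP: the local weights of the pairs of columns
-/

set_option autoImplicit false

namespace Pool.XP

open Finset

/-- local data of a pair of columns: the types in the two words, the membership of its columns -/
abbrev Loc : Type := Bool × Bool × Bool × Bool

section weights

variable (θ α β : ℝ)

/-- the weight of a type -/
def th (T : Bool) : ℝ := bif T then θ else 1 - θ

/-- the weight of the membership in a type -/
def uu (k : Bool × Bool) : ℝ :=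
  bif k.1 then (bif k.2 then α else 1 - α) else (bif k.2 then β else 1 - β)

/-- the weight of a column -/
def vv (k : Bool × Bool) : ℝ := th θ k.1 * uu α β k

/-- the weight of a pair -/
def lw (l : Loc) : ℝ :=
  if l.2.2.1 ≠ l.2.2.2 ∧ l.1 ≠ l.2.1 then 0
  else th θ l.1 * th θ l.2.1 * (uu α β (l.1, l.2.2.1) * uu α β (l.2.1, l.2.2.2))

theorem sum_lw : ∑ l : Loc, lw θ α β l =
    1 - 2 * θ * (1 - θ) * (α * (1 - β) + β * (1 - α)) := by
  simp [Fintype.sum_prod_type, lw, th, uu]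
  ring

variable {θ α β}

theorem lw_sq {l : Loc} (h : l.2.2.1 ≠ l.2.2.2 → l.1 = l.2.1) :
    lw θ α β l ^ 2 = (vv θ α β (l.1, l.2.2.2) * vv θ α β (l.1, l.2.2.1)) *
      (vv θ α β (l.2.1, l.2.2.2) * vv θ α β (l.2.1, l.2.2.1)) := by
  obtain ⟨a, b, c, d⟩ := l
  cases a <;> cases b <;> cases c <;> cases d <;> simp [lw, vv, th, uu] at h ⊢ <;> ring

end weights

section global

variable {R Q : ℕ}

/-- membership of a column -/
def cmP (τ : Fin (R + Q) → Loc) (c : Col R Q) : Bool := bif c.2 then (τ c.1).2.2.2 else (τ c.1).2.2.1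

/-- label of a column in the first word -/
def q1 (τ : Fin (R + Q) → Loc) (c : Col R Q) : Bool × Bool := ((τ c.1).1, cmP τ c)

/-- label of a column in the second word -/
def q3 (τ : Fin (R + Q) → Loc) (c : Col R Q) : Bool × Bool := ((τ c.1).2.1, cmP τ c)

/-- number of the columns with a label -/
def n1 (τ : Fin (R + Q) → Loc) (k : Bool × Bool) : ℕ := (univ.filter fun c => q1 τ c = k).card

/-- number of the columns with a label -/
def n3 (τ : Fin (R + Q) → Loc) (k : Bool × Bool) : ℕ := (univ.filter fun c => q3 τ c = k).card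

/-- compatible data -/
def Cmp (τ : Fin (R + Q) → Loc) : Prop := ∀ g, (τ g).2.2.1 ≠ (τ g).2.2.2 → (τ g).1 = (τ g).2.1

theorem lw_nonneg {θ α β : ℝ} (h0 : 0 ≤ θ) (h1 : θ ≤ 1) (h2 : 0 ≤ α) (h3 : α ≤ 1) (h4 : 0 ≤ β)
    (h5 : β ≤ 1) (l : Loc) : 0 ≤ lw θ α β l := by
  have h6 : ∀ T, 0 ≤ th θ T := fun T => by cases T <;> simp [th] <;> linarith
  have h7 : ∀ k, 0 ≤ uu α β k := fun k => by
    obtain ⟨a, b⟩ := k
    cases a <;> cases b <;> simp [uu] <;> linarith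
  unfold lw
  split_ifs
  · exact le_rfl
  · exact mul_nonneg (mul_nonneg (h6 _) (h6 _)) (mul_nonneg (h7 _) (h7 _))

theorem vv_nonneg {θ α β : ℝ} (h0 : 0 ≤ θ) (h1 : θ ≤ 1) (h2 : 0 ≤ α) (h3 : α ≤ 1) (h4 : 0 ≤ β)
    (h5 : β ≤ 1) (k : Bool × Bool) : 0 ≤ vv θ α β k := by
  obtain ⟨a, b⟩ := k
  have h6 : ∀ T, 0 ≤ th θ T := fun T => by cases T <;> simp [th] <;> linarith
  refine mul_nonneg (h6 _) ?_
  cases a <;> cases b <;> simp [uu] <;> linarith

/-- the weight of compatible data is a function of the label counts -/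
theorem prod_lw {θ α β : ℝ} (h0 : 0 ≤ θ) (h1 : θ ≤ 1) (h2 : 0 ≤ α) (h3 : α ≤ 1) (h4 : 0 ≤ β)
    (h5 : β ≤ 1) (τ : Fin (R + Q) → Loc) (hc : Cmp τ) (h13 : ∀ k, n1 τ k = n3 τ k) :
    ∏ g, lw θ α β (τ g) = ∏ k, vv θ α β k ^ n1 τ k := by
  have hf : ∀ q : Col R Q → Bool × Bool,
      ∏ c, vv θ α β (q c) = ∏ k, vv θ α β k ^ (univ.filter fun c => q c = k).card := by
    intro q
    rw [← prod_fiberwise' univ q (vv θ α β)]
    exact prod_congr rfl fun k _ => by rw [prod_const]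
  have hsq : (∏ g, lw θ α β (τ g)) ^ 2 = (∏ k, vv θ α β k ^ n1 τ k) ^ 2 := by
    have e1 : (∏ g, lw θ α β (τ g)) ^ 2 =
        (∏ c, vv θ α β (q1 τ c)) * ∏ c, vv θ α β (q3 τ c) := by
      rw [← prod_pow, Fintype.prod_prod_type, Fintype.prod_prod_type, ← prod_mul_distrib]
      refine prod_congr rfl fun g _ => ?_
      rw [lw_sq (hc g), Fintype.prod_bool, Fintype.prod_bool]
      simp [q1, q3, cmP]
    rw [e1, hf, hf, sq]
    congr 1
    exact prod_congr rfl fun k _ => by rw [← n3, ← h13]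
  refine (sq_eq_sq₀ ?_ ?_).1 hsq
  · exact prod_nonneg fun g _ => lw_nonneg h0 h1 h2 h3 h4 h5 _
  · exact prod_nonneg fun k _ => pow_nonneg (vv_nonneg h0 h1 h2 h3 h4 h5 _) _

/-- the number of compatible data with given label counts -/
theorem card_loc_le {θ α β : ℝ} (h0 : 0 ≤ θ) (h1 : θ ≤ 1) (h2 : 0 ≤ α) (h3 : α ≤ 1) (h4 : 0 ≤ β)
    (h5 : β ≤ 1) (n : Bool × Bool → ℕ) (Γ : Finset (Fin (R + Q) → Loc))
    (hΓ : ∀ τ ∈ Γ, Cmp τ ∧ (∀ k, n1 τ k = n3 τ k) ∧ ∀ k, n1 τ k = n k) :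
    (Γ.card : ℝ) * ∏ k, vv θ α β k ^ n k ≤
      (1 - 2 * θ * (1 - θ) * (α * (1 - β) + β * (1 - α))) ^ (R + Q) := by
  rw [← sum_lw θ α β, Fintype.sum_pow, ← nsmul_eq_mul, ← sum_const]
  calc ∑ _τ ∈ Γ, ∏ k, vv θ α β k ^ n k = ∑ τ ∈ Γ, ∏ g, lw θ α β (τ g) := by
        refine sum_congr rfl fun τ hτ => ?_
        obtain ⟨a1, a2, a3⟩ := hΓ τ hτ
        rw [prod_lw h0 h1 h2 h3 h4 h5 τ a1 a2]
        exact prod_congr rfl fun k _ => by rw [a3]
    _ ≤ ∑ τ : Fin (R + Q) → Loc, ∏ g, lw θ α β (τ g) :=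
        sum_le_sum_of_subset_of_nonneg (subset_univ _)
          fun τ _ _ => prod_nonneg fun g _ => lw_nonneg h0 h1 h2 h3 h4 h5 _

end global

end Pool.XP
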